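import Pool.Agent.P.MP_4d1c53_an.Defs

/-! The Schur class, normal families and the division property. -/

open Complex ComplexConjugate Filter Topology Metric Set

noncomputable section

namespace Pool.Agent.P.MP_4d1c53_an

/-- Holomorphic on the disc and bounded by one. -/
def Sch (g : ℂ → ℂ) : Prop := DifferentiableOn ℂ g disc ∧ ∀ z ∈ disc, ‖g z‖ ≤ 1

/-- Nonconstant on the disc. -/
def NC (g : ℂ → ℂ) : Prop := ∃ z ∈ disc, ∃ w ∈ disc, g z ≠ g w

/-- Not identically zero on the disc. -/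
def NZ (g : ℂ → ℂ) : Prop := ∃ z ∈ disc, g z ≠ 0

/-- The division property. -/
def Mx (g : ℂ → ℂ) : Prop :=
  ∀ h : ℂ → ℂ, DifferentiableOn ℂ h disc → (∀ z ∈ disc, ‖g z * h z‖ ≤ 1) → ∀ z ∈ disc, ‖h z‖ ≤ 1

variable {g h k : ℂ → ℂ} {a b c z w : ℂ}

theorem mem_disc : z ∈ disc ↔ ‖z‖ < 1 := mem_ball_zero_iff

theorem zero_mem_disc : (0 : ℂ) ∈ disc := mem_ball_self one_pos

theorem pre_disc : IsPreconnected disc := (convex_ball (0 : ℂ) 1).isPreconnected

theorem an (hg : DifferentiableOn ℂ g disc) : AnalyticOnNhd ℂ g disc :=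
  hg.analyticOnNhd isOpen_ball

theorem NC.nz (hg : NC g) : NZ g := by
  obtain ⟨z, hz, w, hw, hne⟩ := hg
  by_cases h0 : g z = 0
  · exact ⟨w, hw, fun h1 => hne (h0.trans h1.symm)⟩
  · exact ⟨z, hz, h0⟩

theorem Sch.mul (hg : Sch g) (hh : Sch h) : Sch fun z => g z * h z :=
  ⟨hg.1.mul hh.1, fun z hz => by
    rw [norm_mul]
    exact mul_le_one₀ (hg.2 z hz) (norm_nonneg _) (hh.2 z hz)⟩

theorem sch_const (hc : ‖c‖ ≤ 1) : Sch fun _ => c := ⟨differentiableOn_const _, fun _ _ => hc⟩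

theorem Sch.comp (hg : Sch g) (hh : DifferentiableOn ℂ h disc) (hm : MapsTo h disc disc) :
    Sch fun z => g (h z) := ⟨hg.1.comp hh hm, fun _ hz => hg.2 _ (hm hz)⟩

theorem sch_of_maps (hh : DifferentiableOn ℂ h disc) (hm : MapsTo h disc disc) : Sch h :=
  ⟨hh, fun _ hz => (mem_disc.1 (hm hz)).le⟩

theorem sch_prod {ι : Type} (s : Finset ι) {p : ι → ℂ → ℂ} (hp : ∀ i ∈ s, Sch (p i)) :
    Sch fun z => ∏ i ∈ s, p i z := by
  classical
  induction s using Finset.induction_on with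
  | empty => simpa using sch_const (c := 1) (by simp)
  | insert i s hi ih =>
    simp only [Finset.prod_insert hi]
    exact (hp i (Finset.mem_insert_self _ _)).mul
      (ih fun j hj => hp j (Finset.mem_insert_of_mem hj))

theorem Sch.pow (hg : Sch g) (n : ℕ) : Sch fun z => g z ^ n := by
  simpa using sch_prod (Finset.range n) (p := fun _ => g) fun _ _ => hg

theorem Sch.lip (hg : Sch g) (hz : z ∈ disc) (hw : w ∈ ball z (1 - ‖z‖)) :
    dist (g w) (g z) ≤ 2 / (1 - ‖z‖) * dist w z := by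
  have hs : ball z (1 - ‖z‖) ⊆ disc := ball_subset_ball' (by simp)
  refine dist_le_div_mul_dist_of_mapsTo_ball (hg.1.mono hs) (fun v hv => ?_) hw
  rw [mem_closedBall, dist_eq_norm]
  linarith [norm_sub_le (g v) (g z), hg.2 v (hs hv), hg.2 z hz]

/-- Joint convergence. -/
theorem tendsto_joint {κ : Type} {l : Filter κ} {G : κ → ℂ → ℂ} (hG : ∀ i, Sch (G i)) {v : κ → ℂ}
    (hw : w ∈ disc) (hv : Tendsto v l (𝓝 w)) (hl : Tendsto (fun i => G i w) l (𝓝 a)) :
    Tendsto (fun i => G i (v i)) l (𝓝 a) := by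
  have hr : 0 < 1 - ‖w‖ := sub_pos.2 (mem_disc.1 hw)
  refine hl.congr_dist (squeeze_zero' (g := fun i => 2 / (1 - ‖w‖) * dist (v i) w)
    (Eventually.of_forall fun _ => dist_nonneg) ?_ ?_)
  · filter_upwards [hv (ball_mem_nhds w hr)] with i hi
    rw [dist_comm]
    exact (hG i).lip hw hi
  · simpa using (tendsto_iff_dist_tendsto_zero.1 hv).const_mul (2 / (1 - ‖w‖))

theorem tlu {κ : Type} {l : Filter κ} [l.NeBot] {G : κ → ℂ → ℂ} (hG : ∀ i, Sch (G i))
    (hl : ∀ z ∈ disc, Tendsto (fun i => G i z) l (𝓝 (g z))) :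
    TendstoLocallyUniformlyOn G g l disc := by
  refine Metric.tendstoLocallyUniformlyOn_iff.mpr fun ε hε x hx => ?_
  have hr : 0 < 1 - ‖x‖ := sub_pos.2 (mem_disc.1 hx)
  have hs : ball x (1 - ‖x‖) ⊆ disc := ball_subset_ball' (by simp)
  set δ := min (1 - ‖x‖) (ε * (1 - ‖x‖) / 8) with hδ
  have hδ0 : 0 < δ := lt_min hr (by positivity)
  refine ⟨ball x δ, mem_nhdsWithin_of_mem_nhds (ball_mem_nhds x hδ0), ?_⟩
  filter_upwards [Metric.tendsto_nhds.1 (hl x hx) (ε / 4) (by positivity)] with i hi y hy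
  have hy1 : y ∈ ball x (1 - ‖x‖) := ball_subset_ball (min_le_left _ _) hy
  have hy2 : 2 / (1 - ‖x‖) * dist y x ≤ ε / 4 := by
    have : dist y x ≤ ε * (1 - ‖x‖) / 8 := (mem_ball.1 hy).le.trans (min_le_right _ _)
    calc 2 / (1 - ‖x‖) * dist y x ≤ 2 / (1 - ‖x‖) * (ε * (1 - ‖x‖) / 8) := by gcongr
      _ = ε / 4 := by field_simp; ring
  have h1 : dist (g y) (g x) ≤ ε / 4 :=
    le_of_tendsto' ((hl y (hs hy1)).dist (hl x hx)) fun j => ((hG j).lip hx hy1).trans hy2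
  have h2 := ((hG i).lip hx hy1).trans hy2
  have h3 := dist_triangle4 (g y) (g x) (G i x) (G i y)
  rw [dist_comm (g x), dist_comm (G i x) (G i y)] at h3
  linarith

theorem sch_lim {κ : Type} {l : Filter κ} [l.NeBot] {G : κ → ℂ → ℂ} (hG : ∀ i, Sch (G i))
    (hl : ∀ z ∈ disc, Tendsto (fun i => G i z) l (𝓝 (g z))) : Sch g :=
  ⟨(tlu hG hl).differentiableOn (Eventually.of_forall fun i => (hG i).1) isOpen_ball,
    fun z hz => le_of_tendsto' (hl z hz).norm fun i => (hG i).2 z hz⟩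

theorem montel {κ : Type} (U : Ultrafilter κ) {G : κ → ℂ → ℂ} (hG : ∀ i, Sch (G i)) :
    ∃ g, Sch g ∧ ∀ z ∈ disc, Tendsto (fun i => G i z) U (𝓝 (g z)) := by
  have h1 : ∀ z ∈ disc, ∃ w, Tendsto (fun i => G i z) U (𝓝 w) := by
    intro z hz
    obtain ⟨w, -, hw⟩ := (isCompact_closedBall (0 : ℂ) 1).ultrafilter_le_nhds
      (U.map fun i => G i z) (by
        rw [Ultrafilter.coe_map, le_principal_iff, mem_map]
        exact Eventually.of_forall fun i => mem_closedBall_zero_iff.2 ((hG i).2 z hz))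
    exact ⟨w, hw⟩
  choose! g hg using h1
  exact ⟨g, sch_lim hG hg, hg⟩

theorem ev_ne (hg : DifferentiableOn ℂ g disc) (h0 : NZ g) (hz : z ∈ disc) :
    ∀ᶠ w in 𝓝[≠] z, g w ≠ 0 := by
  refine (an hg z hz).eventually_eq_zero_or_eventually_ne_zero.resolve_left fun h1 => ?_
  obtain ⟨w, hw, hne⟩ := h0
  exact hne ((an hg).eqOn_zero_of_preconnected_of_eventuallyEq_zero pre_disc hz h1 hw)

theorem le_one_of_ne (hg : DifferentiableOn ℂ g disc) (h0 : NZ g)
    (hh : DifferentiableOn ℂ h disc) (hb : ∀ z ∈ disc, g z ≠ 0 → ‖h z‖ ≤ 1) (hz : z ∈ disc) :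
    ‖h z‖ ≤ 1 := by
  have h1 : Tendsto (fun w => ‖h w‖) (𝓝[≠] z) (𝓝 ‖h z‖) :=
    ((an hh z hz).continuousAt.norm.tendsto).mono_left nhdsWithin_le_nhds
  refine le_of_tendsto h1 ?_
  filter_upwards [ev_ne hg h0 hz, mem_nhdsWithin_of_mem_nhds (isOpen_ball.mem_nhds hz)] with w h2 h3
  exact hb w h3 h2

/-- Two functions that agree on the image of a nonconstant map agree. -/
theorem eq_of_comp (hg : DifferentiableOn ℂ g disc) (hk : DifferentiableOn ℂ k disc)
    (hh : DifferentiableOn ℂ h disc) (hm : MapsTo h disc disc) (hn : NC h)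
    (he : ∀ z ∈ disc, g (h z) = k (h z)) : ∀ w ∈ disc, g w = k w := by
  rcases (an hh).is_constant_or_isOpen pre_disc with ⟨v, hv⟩ | ho
  · obtain ⟨z, hz, w, hw, hne⟩ := hn
    exact absurd ((hv z hz).trans (hv w hw).symm) hne
  · have hop := ho disc Subset.rfl isOpen_ball
    refine (an hg).eqOn_of_preconnected_of_eventuallyEq (an hk) pre_disc (hm zero_mem_disc) ?_
    filter_upwards [hop.mem_nhds ⟨0, zero_mem_disc, rfl⟩] with v hv
    obtain ⟨z, hz, rfl⟩ := hv
    exact he z hz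

theorem NC.comp (hn : NC g) (hg : DifferentiableOn ℂ g disc) (hh : DifferentiableOn ℂ h disc)
    (hm : MapsTo h disc disc) (hn' : NC h) : NC fun z => g (h z) := by
  by_contra hc
  have h1 : ∀ z ∈ disc, g (h z) = g (h 0) := fun z hz =>
    by_contra fun h2 => hc ⟨z, hz, 0, zero_mem_disc, h2⟩
  have h2 := eq_of_comp hg (differentiableOn_const (g (h 0))) hh hm hn' h1
  obtain ⟨z, hz, w, hw, hne⟩ := hn
  exact hne ((h2 z hz).trans (h2 w hw).symm)

theorem Sch.const_of_norm (hg : Sch g) (hz : z ∈ disc) (h1 : 1 ≤ ‖g z‖) :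
    ∀ w ∈ disc, g w = g z := fun _ hw =>
  eqOn_of_isPreconnected_of_isMaxOn_norm pre_disc isOpen_ball hg.1 hz
    (fun v hv => (hg.2 v hv).trans h1) hw

theorem Sch.maps (hg : Sch g) (hn : NC g) : MapsTo g disc disc := by
  intro z hz
  rw [mem_disc]
  by_contra h1
  have h2 := hg.const_of_norm hz (not_lt.1 h1)
  obtain ⟨u, hu, w, hw, hne⟩ := hn
  exact hne ((h2 u hu).trans (h2 w hw).symm)

theorem den_ne (ha : a ∈ disc) (hw : w ∈ disc) : 1 - conj a * w ≠ 0 := by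
  intro h0
  have h1 : ‖conj a * w‖ = 1 := by rw [← sub_eq_zero.1 h0, norm_one]
  rw [norm_mul, RCLike.norm_conj] at h1
  nlinarith [mem_disc.1 ha, mem_disc.1 hw, norm_nonneg a, norm_nonneg w]

theorem mob_maps (ha : a ∈ disc) : MapsTo (mob a) disc disc := by
  intro w hw
  rw [mem_disc, mob, norm_div, div_lt_one (norm_pos_iff.2 (den_ne ha hw))]
  refine lt_of_pow_lt_pow_left₀ 2 (norm_nonneg _) ?_
  have h1 : ‖a‖ ^ 2 < 1 := pow_lt_one₀ (norm_nonneg _) (mem_disc.1 ha) two_ne_zero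
  have h2 : ‖w‖ ^ 2 < 1 := pow_lt_one₀ (norm_nonneg _) (mem_disc.1 hw) two_ne_zero
  simp only [Complex.sq_norm, normSq_apply, sub_re, sub_im, mul_re, mul_im, conj_re, conj_im,
    one_re, one_im] at h1 h2 ⊢
  nlinarith [mul_pos (sub_pos.2 h1) (sub_pos.2 h2)]

theorem mob_diff (ha : a ∈ disc) : DifferentiableOn ℂ (mob a) disc :=
  DifferentiableOn.div (by fun_prop) (by fun_prop) fun _ hw => den_ne ha hw

theorem mob_sch (ha : a ∈ disc) : Sch (mob a) := sch_of_maps (mob_diff ha) (mob_maps ha)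

theorem mob_eq_zero (ha : a ∈ disc) (hw : w ∈ disc) : mob a w = 0 ↔ w = a := by
  rw [mob, div_eq_zero_iff, or_iff_left (den_ne ha hw), sub_eq_zero]

theorem neg_mem_disc (ha : a ∈ disc) : -a ∈ disc := by simpa [mem_disc] using ha

theorem mob_mob (ha : a ∈ disc) (hw : w ∈ disc) : mob (-a) (mob a w) = w := by
  have h1 := den_ne ha hw
  have h2 := den_ne (neg_mem_disc ha) (mob_maps ha hw)
  rw [mob, div_eq_iff h2, mob, map_neg]
  have h3 := div_mul_cancel₀ (w - a) h1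
  generalize (w - a) / (1 - conj a * w) = q at h3 ⊢
  linear_combination h3

theorem mob_nc (ha : a ∈ disc) : NC (mob a) := by
  have h1 : ((1 / 2 : ℝ) : ℂ) ∈ disc := by
    rw [mem_disc, norm_real]
    norm_num
  refine ⟨0, zero_mem_disc, _, h1, fun h2 => ?_⟩
  have h3 := mob_mob ha zero_mem_disc
  rw [h2, mob_mob ha h1] at h3
  norm_num at h3

theorem mx_mob (ha : a ∈ disc) : Mx (mob a) := by
  intro h hh hb z hz
  refine le_one_of_ne (mob_diff ha) (mob_nc ha).nz hh (fun z hz hne => ?_) hz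
  have hn := neg_mem_disc ha
  have h1 : ∀ w ∈ disc, mob a (mob (-a) w) = w := fun w hw => by
    simpa using mob_mob hn hw
  have h2 := norm_le_norm_of_mapsTo_ball (f := fun w => w * h (mob (-a) w)) (R := 1)
    (differentiableOn_id.mul (hh.comp (mob_diff hn) (mob_maps hn)))
    (fun w hw => mem_closedBall_zero_iff.2 (by
      have := hb _ (mob_maps hn hw)
      rwa [h1 w hw] at this)) (by simp) (mem_disc.1 (mob_maps ha hz))
  rw [mob_mob ha hz, norm_mul] at h2
  exact (mul_le_iff_le_one_right (norm_pos_iff.2 hne)).1 h2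

theorem Sch.div (hg : Sch g) (hc : c ∈ disc) (h0 : g c = 0) :
    ∃ k, Sch k ∧ ∀ z ∈ disc, g z = mob c z * k z := by
  have hd : DifferentiableOn ℂ (fun z => dslope g c z * (1 - conj c * z)) disc :=
    ((differentiableOn_dslope (isOpen_ball.mem_nhds hc)).2 hg.1).mul (by fun_prop)
  have he : ∀ z ∈ disc, g z = mob c z * (dslope g c z * (1 - conj c * z)) := by
    intro z hz
    have h1 := sub_smul_dslope g c z
    rw [h0, sub_zero, smul_eq_mul] at h1
    have h2 := den_ne hc hz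
    rw [← h1, mob, mul_comm (dslope g c z), ← mul_assoc, div_mul_cancel₀ _ h2]
  exact ⟨_, ⟨hd, mx_mob hc _ hd fun z hz => he z hz ▸ hg.2 z hz⟩, he⟩

theorem Mx.congr (hg : Mx g) (he : ∀ z ∈ disc, g z = k z) : Mx k := fun h hh hb =>
  hg h hh fun z hz => by
    rw [he z hz]
    exact hb z hz

theorem Mx.mul (hg : Mx g) (hk : Mx k) (hd : DifferentiableOn ℂ k disc) :
    Mx fun z => g z * k z := fun h hh hb =>
  hk h hh (hg _ (hd.mul hh) fun z hz => by simpa only [mul_assoc] using hb z hz)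

theorem Mx.of_mul (hg : Mx fun z => g z * k z) (hk : Sch k) : Mx g := fun h hh hb =>
  hg h hh fun z hz => by
    rw [mul_right_comm, norm_mul]
    exact mul_le_one₀ (hb z hz) (norm_nonneg _) (hk.2 z hz)

theorem mx_const (hc : ‖c‖ = 1) : Mx fun _ => c := fun h _ hb z hz => by
  simpa [hc] using hb z hz

theorem mx_prod {ι : Type} (s : Finset ι) {p : ι → ℂ → ℂ}
    (hp : ∀ i ∈ s, Mx (p i) ∧ DifferentiableOn ℂ (p i) disc) : Mx fun z => ∏ i ∈ s, p i z := by
  classical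
  induction s using Finset.induction_on with
  | empty => simpa using mx_const (c := 1) (by simp)
  | insert i s hi ih =>
    simp only [Finset.prod_insert hi]
    have h1 := hp i (Finset.mem_insert_self _ _)
    exact ((ih fun j hj => hp j (Finset.mem_insert_of_mem hj)).mul h1.1 h1.2).congr
      fun z _ => mul_comm _ _

/-- The limit lemma. -/
theorem mx_lim (hg : DifferentiableOn ℂ g disc) (h0 : NZ g)
    (hl : ∀ z ∈ disc, ∀ ε > 0, ∃ p k : ℂ → ℂ, Mx p ∧ Sch p ∧ Sch k ∧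
      (∀ w ∈ disc, g w = p w * k w) ∧ ‖p z‖ ≤ ‖g z‖ + ε) : Mx g := by
  intro h hh hb z hz
  refine le_one_of_ne hg h0 hh (fun z hz hne => ?_) hz
  refine (mul_le_iff_le_one_right (norm_pos_iff.2 hne)).1 (le_of_forall_pos_le_add fun ε hε => ?_)
  obtain ⟨p, k, hp, -, hk, he, hle⟩ := hl z hz ε hε
  have h1 := hp _ (hk.1.mul hh) (fun w hw => by
    have := hb w hw
    rwa [he w hw, mul_assoc] at this) z hz
  calc ‖g z‖ * ‖h z‖ = ‖p z‖ * ‖k z * h z‖ := by rw [he z hz, norm_mul, norm_mul, mul_assoc]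
    _ ≤ ‖p z‖ := mul_le_of_le_one_right (norm_nonneg _) h1
    _ ≤ _ := hle

end Pool.Agent.P.MP_4d1c53_an
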