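import Pool.Agent.P.MP_4d1c53_an.A

/-! Blaschke products have the division property, and the factorisation theorem of Riesz. -/

open Complex ComplexConjugate Filter Topology Metric Set

noncomputable section

namespace Pool.Agent.P.MP_4d1c53_an

variable {g h k B C P : ℂ → ℂ} {a b c z w : ℂ}

theorem factor_eq (a z : ℂ) : factor a z = -((‖a‖ : ℂ) / a) * mob a z := by
  rw [factor, mob]
  ring

theorem norm_unit (ha : a ≠ 0) : ‖-((‖a‖ : ℂ) / a)‖ = 1 := by
  rw [norm_neg, norm_div, norm_real, norm_norm, div_self (norm_ne_zero_iff.2 ha)]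

theorem factor_sch (ha : a ∈ disc) (h0 : a ≠ 0) : Sch (factor a) := by
  have := (sch_const (norm_unit h0).le).mul (mob_sch ha)
  simpa only [← factor_eq] using this

theorem mob_zero (z : ℂ) : mob 0 z = z := by simp [mob]

theorem exists_tail {ι : Type} {a : ι → ℂ} (ha : ∀ i, a i ∈ disc ∧ a i ≠ 0)
    (hP : ∀ z ∈ disc, HasProd (fun i => factor (a i) z) (P z)) (s : Finset ι) :
    ∃ k, Sch k ∧ ∀ z ∈ disc, P z = (∏ i ∈ s, factor (a i) z) * k z := by
  classical
  obtain ⟨U, hU⟩ := Ultrafilter.exists_le (atTop : Filter (Finset ι))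
  obtain ⟨k, hk, hl⟩ := montel U (G := fun t z => ∏ i ∈ t \ s, factor (a i) z)
    fun t => sch_prod _ fun i _ => factor_sch (ha i).1 (ha i).2
  refine ⟨k, hk, fun z hz => ?_⟩
  have h1 : Tendsto (fun t => ∏ i ∈ t, factor (a i) z) U (𝓝 (P z)) :=
    Tendsto.mono_left (hP z hz) hU
  refine tendsto_nhds_unique h1 (((hl z hz).const_mul _).congr' ?_)
  filter_upwards [hU (eventually_ge_atTop s)] with t ht
  rw [mul_comm, Finset.prod_sdiff ht]

/-- Composition of a Blaschke product with a self-map. -/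
theorem mx_comp {ι : Type} {a : ι → ℂ} {u : ℂ} {m : ℕ} (hu : ‖u‖ = 1)
    (ha : ∀ i, a i ∈ disc ∧ a i ≠ 0)
    (hP : ∀ z ∈ disc, HasProd (fun i => factor (a i) z) (P z) ∧ B z = u * z ^ m * P z)
    (hC : DifferentiableOn ℂ C disc) (hm : MapsTo C disc disc) (h0 : NZ fun z => B (C z))
    (hz : ∀ b ∈ disc, B b = 0 → Mx fun z => mob b (C z)) : Mx fun z => B (C z) := by
  have hid : Sch fun z : ℂ => z := sch_of_maps differentiableOn_id (mapsTo_id _)
  have hF : ∀ s : Finset ι, Sch fun z => u * z ^ m * ∏ i ∈ s, factor (a i) z := fun s =>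
    ((sch_const hu.le).mul (hid.pow m)).mul (sch_prod s fun i _ => factor_sch (ha i).1 (ha i).2)
  have hl : ∀ z ∈ disc, Tendsto (fun s : Finset ι => u * z ^ m * ∏ i ∈ s, factor (a i) z) atTop
      (𝓝 (B z)) := fun z hz => by
    rw [(hP z hz).2]
    exact Tendsto.const_mul _ (hP z hz).1
  have hB : Sch B := sch_lim hF hl
  have hi : ∀ i, Mx fun z => factor (a i) (C z) := by
    intro i
    obtain ⟨k, -, hk⟩ := exists_tail ha (fun z hz => (hP z hz).1) {i}
    have h1 : B (a i) = 0 := by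
      rw [(hP _ (ha i).1).2, hk _ (ha i).1]
      simp [factor]
    have := (mx_const (norm_unit (ha i).2)).mul (hz _ (ha i).1 h1)
      ((mob_sch (ha i).1).comp hC hm).1
    simpa only [← factor_eq] using this
  have hp : Mx fun z => C z ^ m := by
    rcases Nat.eq_zero_or_pos m with rfl | hm0
    · simpa using mx_const (c := 1) (by simp)
    · have h1 : B 0 = 0 := by
        rw [(hP _ zero_mem_disc).2, zero_pow hm0.ne']
        simp
      have h2 := hz 0 zero_mem_disc h1
      simp only [mob_zero] at h2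
      simpa using mx_prod (Finset.range m) (p := fun _ => C) fun _ _ => ⟨h2, hC⟩
  refine mx_lim (hB.comp hC hm).1 h0 fun z hz ε hε => ?_
  obtain ⟨s, hs⟩ := (Metric.tendsto_nhds.1 (hl _ (hm hz)) ε hε).exists
  obtain ⟨k, hk, hk'⟩ := exists_tail ha (fun z hz => (hP z hz).1) s
  refine ⟨fun z => u * C z ^ m * ∏ i ∈ s, factor (a i) (C z), fun z => k (C z), ?_,
    (hF s).comp hC hm, hk.comp hC hm, fun w hw => ?_, ?_⟩
  · exact ((mx_const hu).mul hp (hC.pow m)).mul
      (mx_prod s fun i _ => ⟨hi i, ((factor_sch (ha i).1 (ha i).2).comp hC hm).1⟩)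
      ((sch_prod s fun i _ => factor_sch (ha i).1 (ha i).2).comp hC hm).1
  · rw [(hP _ (hm hw)).2, hk' _ (hm hw)]
    ring
  · rw [dist_eq_norm] at hs
    linarith [norm_sub_norm_le (u * C z ^ m * ∏ i ∈ s, factor (a i) (C z)) (B (C z))]

theorem ord_congr (he : ∀ z ∈ disc, g z = k z) (hw : w ∈ disc) :
    analyticOrderAt g w = analyticOrderAt k w :=
  analyticOrderAt_congr (by
    filter_upwards [isOpen_ball.mem_nhds hw] with z hz using he z hz)

theorem ord_mob (hc : c ∈ disc) (hw : w ∈ disc) :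
    analyticOrderAt (mob c) w = if w = c then 1 else 0 := by
  have h1 := an (mob_diff hc) w hw
  split_ifs with h
  · subst h
    refine (h1.analyticOrderAt_eq_natCast (n := 1)).2 ⟨fun z => (1 - conj w * z)⁻¹, ?_,
      inv_ne_zero (den_ne hc hc), Eventually.of_forall fun z => by simp [mob, div_eq_mul_inv]⟩
    exact AnalyticAt.inv (by fun_prop) (den_ne hc hc)
  · exact h1.analyticOrderAt_eq_zero.2 fun h2 => h ((mob_eq_zero hc hw).1 h2)

theorem div_ord (hc : c ∈ disc) (n : ℕ) : ∀ {g : ℂ → ℂ}, Sch g → analyticOrderAt g c = n →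
    ∃ k, Sch k ∧ (∀ z ∈ disc, g z = mob c z ^ n * k z) ∧ analyticOrderAt k c = 0 ∧
      ∀ w ∈ disc, w ≠ c → analyticOrderAt k w = analyticOrderAt g w := by
  induction n with
  | zero => exact fun hg h0 => ⟨_, hg, by simp, h0, fun _ _ _ => rfl⟩
  | succ n ih =>
    intro g hg h0
    have h1 : g c = 0 := by
      by_contra h2
      rw [(an hg.1 c hc).analyticOrderAt_eq_zero.2 h2] at h0
      exact absurd h0.symm (by simp)
    obtain ⟨k, hk, he⟩ := hg.div hc h1
    have h3 : ∀ w ∈ disc, analyticOrderAt g w =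
        (if w = c then 1 else 0) + analyticOrderAt k w := fun w hw => by
      rw [ord_congr he hw, ← ord_mob hc hw]
      exact analyticOrderAt_mul (an (mob_diff hc) w hw) (an hk.1 w hw)
    have h4 : analyticOrderAt k c = n := by
      have := h3 c hc
      rw [h0, if_pos rfl, Nat.cast_succ, add_comm] at this
      exact WithTop.add_left_cancel ENat.one_ne_top this.symm
    obtain ⟨k', hk', he', h5, h6⟩ := ih hk h4
    refine ⟨k', hk', fun z hz => ?_, h5, fun w hw hne => ?_⟩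
    · rw [he z hz, he' z hz]
      ring
    · rw [h6 w hw hne, h3 w hw, if_neg hne, zero_add]

theorem ord_fin (hg : Sch g) (h0 : NZ g) (hw : w ∈ disc) :
    analyticOrderAt g w = analyticOrderNatAt g w := by
  refine (Nat.cast_analyticOrderNatAt fun h1 => ?_).symm
  have h2 := (analyticOrderAt_eq_top.1 h1).filter_mono (nhdsWithin_le_nhds (s := {w}ᶜ))
  obtain ⟨z, h3, h4⟩ := (h2.and (ev_ne hg.1 h0 hw)).exists
  exact h4 h3

theorem div_finset (hg : Sch g) (h0 : NZ g) (T : Finset {c : ℂ // c ∈ disc ∧ c ≠ 0}) :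
    ∃ k, Sch k ∧ (∀ z ∈ disc, g z = (∏ c ∈ T, factor c z ^ analyticOrderNatAt g c) * k z) ∧
      (∀ c ∈ T, analyticOrderAt k c = 0) ∧
      ∀ w ∈ disc, (∀ c ∈ T, w ≠ c) → analyticOrderAt k w = analyticOrderAt g w := by
  classical
  induction T using Finset.induction_on with
  | empty => exact ⟨g, hg, by simp, by simp, fun _ _ _ => rfl⟩
  | insert c T hc ih =>
    obtain ⟨k, hk, he, h1, h2⟩ := ih
    have h3 : analyticOrderAt k c = analyticOrderNatAt g c := by
      rw [h2 c c.2.1 fun d hd h => hc (Subtype.ext h ▸ hd), ord_fin hg h0 c.2.1]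
    obtain ⟨k', hk', he', h5, h6⟩ := div_ord c.2.1 _ hk h3
    set n := analyticOrderNatAt g c with hn
    set u : ℂ := -((‖(c : ℂ)‖ : ℂ) / c) with hu
    have hu1 : ‖u‖ = 1 := norm_unit c.2.2
    have hu0 : u ≠ 0 := norm_pos_iff.1 (by rw [hu1]; exact one_pos)
    have h7 : ∀ w ∈ disc, analyticOrderAt (fun z => (u ^ n)⁻¹ * k' z) w = analyticOrderAt k' w := by
      intro w hw
      have := analyticOrderAt_mul (f := fun _ => (u ^ n)⁻¹) (g := k') (z₀ := w) analyticAt_const
        (an hk'.1 w hw)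
      rw [analyticAt_const.analyticOrderAt_eq_zero.2 (inv_ne_zero (pow_ne_zero n hu0)),
        zero_add] at this
      exact this
    refine ⟨fun z => (u ^ n)⁻¹ * k' z, (sch_const (by simp [hu1])).mul hk', fun z hz => ?_,
      fun d hd => ?_, fun w hw hne => ?_⟩
    · rw [Finset.prod_insert hc, he z hz, he' z hz, factor_eq, ← hu, mul_pow, ← hn]
      field_simp
    · rw [h7 d d.2.1]
      rcases Finset.mem_insert.1 hd with rfl | hd'
      · exact h5
      · rw [h6 d d.2.1 fun h => hc (Subtype.ext h ▸ hd'), h1 d hd']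
    · rw [h7 w hw, h6 w hw (hne c (Finset.mem_insert_self _ _)),
        h2 w hw fun d hd => hne d (Finset.mem_insert_of_mem hd)]

theorem multipliable_factor {ι : Type} {a : ι → ℂ} (ha : ∀ i, a i ∈ disc ∧ a i ≠ 0)
    (hs : Summable fun i => 1 - ‖a i‖) (hz : z ∈ disc) : Multipliable fun i => factor (a i) z := by
  have hr : 0 < 1 - ‖z‖ := sub_pos.2 (mem_disc.1 hz)
  have h1 : Summable fun i => factor (a i) z - 1 := by
    refine Summable.of_norm_bounded (hs.mul_left (4 / (1 - ‖z‖) + 1)) fun i => ?_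
    have hS := factor_sch (ha i).1 (ha i).2
    have h0 : factor (a i) 0 = (‖a i‖ : ℂ) := by
      have := (ha i).2
      simp only [factor, sub_zero, mul_zero, div_one]
      field_simp
    have ha1 : ‖a i‖ < 1 := mem_disc.1 (ha i).1
    have hd := den_ne (ha i).1 hz
    have h2 : (factor (a i) z - 1) * (1 - conj (a i) * z) =
        -(((1 - ‖a i‖ : ℝ) : ℂ) * (1 + (‖a i‖ : ℂ) / a i * z)) := by
      have h3 : conj (a i) = (‖a i‖ : ℂ) ^ 2 / a i := by
        rw [eq_div_iff (ha i).2, conj_mul']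
      have h4 := (ha i).2
      rw [sub_mul, factor, mul_assoc, div_mul_cancel₀ _ hd, h3]
      push_cast
      field_simp
      ring
    have h5 : 1 - ‖z‖ ≤ ‖1 - conj (a i) * z‖ := by
      have := norm_sub_norm_le (1 : ℂ) (conj (a i) * z)
      rw [norm_one, norm_mul, RCLike.norm_conj] at this
      nlinarith [norm_nonneg z]
    have h6 : ‖1 + (‖a i‖ : ℂ) / a i * z‖ ≤ 2 := by
      have := norm_add_le (1 : ℂ) ((‖a i‖ : ℂ) / a i * z)
      rw [norm_one, norm_mul, ← norm_neg (_ / _), norm_unit (ha i).2] at this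
      linarith
    have h7 := congrArg norm h2
    rw [norm_mul, norm_neg, norm_mul, norm_real, Real.norm_of_nonneg (by linarith)] at h7
    have h8 : ‖factor (a i) z - 1‖ * (1 - ‖z‖) ≤ (1 - ‖a i‖) * 2 :=
      (mul_le_mul_of_nonneg_left h5 (norm_nonneg _)).trans
        (h7.le.trans (mul_le_mul_of_nonneg_left h6 (by linarith)))
    rw [← le_div_iff₀ hr] at h8
    refine h8.trans ?_
    have h9 : (1 - ‖a i‖) * 2 / (1 - ‖z‖) = 2 / (1 - ‖z‖) * (1 - ‖a i‖) := by ring
    rw [h9]
    refine mul_le_mul_of_nonneg_right ?_ (by linarith)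
    have : 2 / (1 - ‖z‖) ≤ 4 / (1 - ‖z‖) := by gcongr; norm_num
    linarith
  simpa using Complex.multipliable_one_add_of_summable h1

/-- The factorisation theorem of Riesz. -/
theorem riesz (hg : Sch g) (h0 : NZ g) :
    ∃ (m : ℕ) (ι : Type) (a : ι → ℂ) (P u : ℂ → ℂ), (∀ i, a i ∈ disc ∧ a i ≠ 0) ∧
      Summable (fun i => 1 - ‖a i‖) ∧ Sch u ∧ Sch P ∧ ∀ z ∈ disc,
        HasProd (fun i => factor (a i) z) (P z) ∧ g z = z ^ m * P z * u z ∧ u z ≠ 0 := by
  classical
  obtain ⟨g₀, hg₀, he₀, h1, -⟩ := div_ord zero_mem_disc _ hg (ord_fin hg h0 zero_mem_disc)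
  have h00 : g₀ 0 ≠ 0 := (an hg₀.1 0 zero_mem_disc).analyticOrderAt_eq_zero.1 h1
  have hn₀ : NZ g₀ := ⟨0, zero_mem_disc, h00⟩
  choose K hK heK hzK hoK using div_finset hg₀ hn₀
  let Z := {c : ℂ // c ∈ disc ∧ c ≠ 0}
  let ι := Σ c : Z, Fin (analyticOrderNatAt g₀ c)
  let a : ι → ℂ := fun i => i.1
  have ha : ∀ i, a i ∈ disc ∧ a i ≠ 0 := fun i => i.1.2
  let σ : Finset Z → Finset ι := fun T => T.sigma fun _ => Finset.univ
  have hσ : ∀ T z, ∏ i ∈ σ T, factor (a i) z =
      ∏ c ∈ T, factor c z ^ analyticOrderNatAt g₀ c := fun T z =>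
    (Finset.prod_sigma T (fun _ => Finset.univ) fun i : ι => factor (a i) z).trans
      (Finset.prod_congr rfl fun c _ => by
        simp only [a, Finset.prod_const, Finset.card_univ, Fintype.card_fin])
  have hsub : ∀ s : Finset ι, s ⊆ σ (s.image fun i => i.1) := fun s i hi =>
    Finset.mem_sigma.2 ⟨Finset.mem_image_of_mem (fun i : ι => i.1) hi, Finset.mem_univ _⟩
  have hσt : Tendsto σ atTop atTop := by
    refine tendsto_atTop_atTop.2 fun s => ⟨s.image fun i => i.1, fun T hT => ?_⟩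
    exact (hsub s).trans (Finset.sigma_mono hT fun _ => subset_rfl)
  have hs : Summable fun i => 1 - ‖a i‖ := by
    refine summable_of_sum_le (c := -Real.log ‖g₀ 0‖)
      (fun i => sub_nonneg.2 (mem_disc.1 (ha i).1).le) fun s => ?_
    refine (Finset.sum_le_sum_of_subset_of_nonneg (hsub s)
      fun i _ _ => sub_nonneg.2 (mem_disc.1 (ha i).1).le).trans ?_
    generalize (s.image fun i => i.1) = T
    have h2 : ‖g₀ 0‖ ≤ ∏ i ∈ σ T, ‖a i‖ := by
      rw [heK T 0 zero_mem_disc, ← hσ, norm_mul, norm_prod]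
      refine (mul_le_of_le_one_right (by positivity) ((hK T).2 0 zero_mem_disc)).trans
        (le_of_eq (Finset.prod_congr rfl fun i _ => ?_))
      rw [factor_eq, norm_mul, norm_unit (ha i).2]
      simp [mob]
    have h3 := Real.log_le_log (norm_pos_iff.2 h00) h2
    rw [Real.log_prod fun i _ => norm_ne_zero_iff.2 (ha i).2] at h3
    have h4 : ∑ i ∈ σ T, Real.log ‖a i‖ ≤ ∑ i ∈ σ T, (‖a i‖ - 1) :=
      Finset.sum_le_sum fun i _ => Real.log_le_sub_one_of_pos (norm_pos_iff.2 (ha i).2)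
    have h5 : ∑ i ∈ σ T, (1 - ‖a i‖) = -∑ i ∈ σ T, (‖a i‖ - 1) := by
      rw [← Finset.sum_neg_distrib]
      simp
    linarith
  have hP : ∀ z ∈ disc, HasProd (fun i => factor (a i) z) (∏' i, factor (a i) z) :=
    fun z hz => (multipliable_factor ha hs hz).hasProd
  obtain ⟨U, hU⟩ := Ultrafilter.exists_le (atTop : Filter (Finset Z))
  obtain ⟨u, hu, hl⟩ := montel U hK
  refine ⟨analyticOrderNatAt g 0, ι, a, fun z => ∏' i, factor (a i) z, u, ha, hs, hu,
    sch_lim (l := atTop) (fun s => sch_prod s fun i _ => factor_sch (ha i).1 (ha i).2) hP,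
    fun z hz => ⟨hP z hz, ?_, ?_⟩⟩
  · rw [he₀ z hz, mob_zero, mul_assoc]
    congr 1
    have h2 : Tendsto (fun T => ∏ i ∈ σ T, factor (a i) z) U (𝓝 (∏' i, factor (a i) z)) :=
      (Tendsto.comp (hP z hz) hσt).mono_left hU
    refine tendsto_nhds_unique (tendsto_const_nhds.congr fun T => ?_) (h2.mul (hl z hz))
    rw [hσ, ← heK T z hz]
  · obtain ⟨T₀, hT₀⟩ : ∃ T₀ : Finset Z, K T₀ z ≠ 0 := by
      by_cases hz0 : z = 0
      · refine ⟨∅, (an (hK ∅).1 z hz).analyticOrderAt_eq_zero.1 ?_⟩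
        rw [hoK ∅ z hz (by simp), hz0, h1]
      · exact ⟨{⟨z, hz, hz0⟩}, (an (hK _).1 z hz).analyticOrderAt_eq_zero.1
          (hzK _ ⟨z, hz, hz0⟩ (Finset.mem_singleton_self _))⟩
    refine norm_pos_iff.1 ((norm_pos_iff.2 hT₀).trans_le (ge_of_tendsto (hl z hz).norm ?_))
    filter_upwards [hU (eventually_ge_atTop T₀)] with T hT
    have hq : Sch fun w => ∏ i ∈ σ (T \ T₀), factor (a i) w :=
      sch_prod _ fun i _ => factor_sch (ha i).1 (ha i).2
    have h2 : ∀ w ∈ disc, g₀ w ≠ 0 → K T₀ w = (∏ i ∈ σ (T \ T₀), factor (a i) w) * K T w := by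
      intro w hw hne
      have h3 := heK T₀ w hw
      have h4 := heK T w hw
      rw [← Finset.prod_sdiff hT] at h4
      refine mul_left_cancel₀ (left_ne_zero_of_mul (h3 ▸ hne)) ?_
      rw [← h3, h4, hσ]
      ring
    have h5 : K T₀ z = (∏ i ∈ σ (T \ T₀), factor (a i) z) * K T z := by
      refine tendsto_nhds_unique (l := 𝓝[≠] z)
        ((an (hK T₀).1 z hz).continuousAt.tendsto.mono_left nhdsWithin_le_nhds)
        (((an (hq.mul (hK T)).1 z hz).continuousAt.tendsto.mono_left nhdsWithin_le_nhds).congr' ?_)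
      filter_upwards [ev_ne hg₀.1 hn₀ hz,
        mem_nhdsWithin_of_mem_nhds (isOpen_ball.mem_nhds hz)] with w h6 h7
      exact (h2 w h7 h6).symm
    rw [h5, norm_mul]
    exact mul_le_of_le_one_left (norm_nonneg _) (hq.2 z hz)

end Pool.Agent.P.MP_4d1c53_an
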