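import Pool.Agent.P.MP_4d1c53_an.B

/-! The exceptional set of finite and infinite forward compositions. -/

open Complex ComplexConjugate Filter Topology Metric Set

noncomputable section

namespace Pool.Agent.P.MP_4d1c53_an

variable {g h F : ℂ → ℂ} {a b c z w : ℂ} {f : ℕ → ℂ → ℂ}

theorem IsBlaschke.mx (hg : IsBlaschke g) : Mx g := by
  obtain ⟨hn, θ, m, ι, a, P, ha, -, hP⟩ := hg
  exact mx_comp (C := fun z => z) (norm_exp_ofReal_mul_I θ) ha hP differentiableOn_id
    (mapsTo_id _) (NC.nz hn) fun b hb _ => mx_mob hb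

/-- If `g ∘ h` has the division property, then `g` is a Blaschke product. -/
theorem blaschke_of_mx (hg : Sch g) (hn : NC g) (hh : DifferentiableOn ℂ h disc)
    (hm : MapsTo h disc disc) (hx : Mx fun z => g (h z)) : IsBlaschke g := by
  obtain ⟨m, ι, a, P, u, ha, hs, hu, hP, he⟩ := riesz hg hn.nz
  have hid : Sch fun z : ℂ => z := sch_of_maps differentiableOn_id (mapsTo_id _)
  have h1 := hx (fun z => (u (h z))⁻¹) ((hu.comp hh hm).1.inv fun z hz => (he _ (hm hz)).2.2)
    (fun z hz => by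
      beta_reduce
      rw [(he _ (hm hz)).2.1, mul_assoc, mul_inv_cancel₀ (he _ (hm hz)).2.2, mul_one]
      exact ((hid.pow m).mul hP).2 _ (hm hz)) 0 zero_mem_disc
  have h0 := hm zero_mem_disc
  have h2 : 1 ≤ ‖u (h 0)‖ := by
    rwa [norm_inv, inv_le_one₀ (norm_pos_iff.2 (he _ h0).2.2)] at h1
  have h3 := hu.const_of_norm h0 h2
  have h4 : exp (arg (u (h 0)) * I) = u (h 0) := by
    have := norm_mul_exp_arg_mul_I (u (h 0))
    rwa [le_antisymm (hu.2 _ h0) h2, ofReal_one, one_mul] at this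
  refine ⟨hn, arg (u (h 0)), m, ι, a, P, ha, hs, fun z hz => ⟨(he z hz).1, ?_⟩⟩
  rw [h4, (he z hz).2.1, h3 z hz]
  ring

theorem mob_comp_nc (ha : a ∈ disc) (hg : DifferentiableOn ℂ g disc) (hm : MapsTo g disc disc)
    (hn : NC g) : NC fun z => mob a (g z) := (mob_nc ha).comp (mob_diff ha) hg hm hn

/-- An inner value of a composition with the division property. -/
theorem mx_inner (ha : a ∈ disc) (hg : DifferentiableOn ℂ g disc) (hm : MapsTo g disc disc)
    (hh : DifferentiableOn ℂ h disc) (hm' : MapsTo h disc disc)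
    (hx : Mx fun z => mob a (g (h z))) (hc : c ∈ disc) (hca : g c = a) :
    Mx fun z => mob c (h z) := by
  obtain ⟨k, hk, he⟩ := ((mob_sch ha).comp hg hm).div hc ((mob_eq_zero ha (hm hc)).2 hca)
  exact Mx.of_mul (hx.congr fun z hz => he _ (hm' hz)) (hk.comp hh hm')

theorem mx_two (ha : a ∈ disc) (hg : DifferentiableOn ℂ g disc) (hm : MapsTo g disc disc)
    (hh : DifferentiableOn ℂ h disc) (hm' : MapsTo h disc disc) (hn : NC h)
    (hB : IsBlaschke fun z => mob a (g z))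
    (hz : ∀ c ∈ disc, g c = a → Mx fun z => mob c (h z)) : Mx fun z => mob a (g (h z)) := by
  obtain ⟨hn', θ, m, ι, b, P, hb, -, hP⟩ := hB
  exact mx_comp (B := fun z => mob a (g z)) (norm_exp_ofReal_mul_I θ) hb hP hh hm'
    (NC.comp hn' ((mob_sch ha).comp hg hm).1 hh hm' hn).nz
    fun c hc h0 => hz c hc ((mob_eq_zero ha (hm hc)).1 h0)

theorem orb_add (f : ℕ → ℂ → ℂ) (n k m : ℕ) (z : ℂ) :
    orb f n (k + m) z = orb f (n + k) m (orb f n k z) := by
  induction m with
  | zero => rfl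
  | succ m ih =>
    change f (n + (k + m)) (orb f n (k + m) z) = f (n + k + m) (orb f (n + k) m (orb f n k z))
    rw [ih, add_assoc]

theorem orb_good (hd : ∀ n, DifferentiableOn ℂ (f n) disc) (hm : ∀ n, MapsTo (f n) disc disc)
    (n m : ℕ) : DifferentiableOn ℂ (orb f n m) disc ∧ MapsTo (orb f n m) disc disc := by
  induction m with
  | zero => exact ⟨differentiableOn_id, mapsTo_id _⟩
  | succ m ih => exact ⟨(hd _).comp ih.1 ih.2, (hm _).comp ih.2⟩

theorem tail_tendsto (hF : ∀ z ∈ disc, Tendsto (fun m => orb f 0 m z) atTop (𝓝 (F z))) (n : ℕ)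
    (hz : z ∈ disc) : Tendsto (fun m => orb f n m (orb f 0 n z)) atTop (𝓝 (F z)) := by
  refine ((hF z hz).comp (tendsto_add_atTop_nat n)).congr fun m => ?_
  simp only [Function.comp, add_comm m n, orb_add, zero_add]

theorem nc_of_tendsto {u : ℂ → ℂ} {G : ℕ → ℂ → ℂ}
    (hF : ∀ z ∈ disc, Tendsto (fun m => G m (u z)) atTop (𝓝 (F z))) (hn : NC F) : NC u := by
  obtain ⟨z, hz, w, hw, hne⟩ := hn
  refine ⟨z, hz, w, hw, fun h => hne (tendsto_nhds_unique (hF z hz) ?_)⟩
  rw [h]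
  exact hF w hw

theorem exists_tail_lim (hd : ∀ n, DifferentiableOn ℂ (f n) disc)
    (hm : ∀ n, MapsTo (f n) disc disc)
    (hF : ∀ z ∈ disc, Tendsto (fun m => orb f 0 m z) atTop (𝓝 (F z))) (hn : NC F) (n : ℕ) :
    ∃ G, Sch G ∧ (∀ w ∈ disc, Tendsto (fun m => orb f n m w) atTop (𝓝 (G w))) ∧
      ∀ z ∈ disc, G (orb f 0 n z) = F z := by
  have hS : ∀ m, Sch (orb f n m) := fun m =>
    sch_of_maps (orb_good hd hm n m).1 (orb_good hd hm n m).2
  have key : ∀ U : Ultrafilter ℕ, (U : Filter ℕ) ≤ atTop → ∃ G, Sch G ∧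
      (∀ w ∈ disc, Tendsto (fun m => orb f n m w) U (𝓝 (G w))) ∧
      ∀ z ∈ disc, G (orb f 0 n z) = F z := by
    intro U hU
    obtain ⟨G, hG, hl⟩ := montel U hS
    exact ⟨G, hG, hl, fun z hz => tendsto_nhds_unique (hl _ ((orb_good hd hm 0 n).2 hz))
      ((tail_tendsto hF n hz).mono_left hU)⟩
  obtain ⟨U, hU⟩ := Ultrafilter.exists_le (atTop : Filter ℕ)
  obtain ⟨G, hG, -, he⟩ := key U hU
  refine ⟨G, hG, fun w hw => (tendsto_iff_ultrafilter _ _ _).2 fun V hV => ?_, he⟩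
  obtain ⟨G', hG', hl', he'⟩ := key V hV
  rw [eq_of_comp hG.1 hG'.1 (orb_good hd hm 0 n).1 (orb_good hd hm 0 n).2
    (nc_of_tendsto (fun z hz => tail_tendsto hF n hz) hn)
    (fun z hz => (he z hz).trans (he' z hz).symm) w hw]
  exact hl' w hw

/-- A version of the theorem of Hurwitz. -/
theorem hurwitz {l : Filter ℕ} [l.NeBot] {G : ℕ → ℂ → ℂ} (hG : ∀ n, Sch (G n))
    (hn : ∀ n, NC (G n)) (hl : ∀ w ∈ disc, Tendsto (fun n => G n w) l (𝓝 w)) (ha : a ∈ disc)
    {r : ℝ} (hr : 0 < r) (hs : closedBall a r ⊆ disc) :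
    ∀ᶠ n in l, ∃ b ∈ closedBall a r, G n b = a := by
  have h1 := (tendstoLocallyUniformlyOn_iff_forall_isCompact isOpen_ball).1
    (tlu (g := fun w => w) hG hl) _ hs (isCompact_closedBall a r)
  filter_upwards [Metric.tendstoUniformlyOn_iff.1 h1 (r / 8) (by positivity)] with n h2
  have h3 : DiffContOnCl ℂ (G n) (ball a r) :=
    DifferentiableOn.diffContOnCl ((hG n).1.mono (closure_ball_subset_closedBall.trans hs))
  have h4 := h2 a (mem_closedBall_self hr.le)
  refine h3.ball_subset_image_closedBall hr (ε := r / 2) (fun z hz => ?_) ?_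
    (mem_ball.2 (by linarith))
  · have h5 := h2 z (sphere_subset_closedBall hz)
    have h6 := dist_triangle4 z (G n z) (G n a) a
    rw [mem_sphere.1 hz, dist_comm (G n a), dist_eq_norm (G n z)] at h6
    linarith
  · have h5 : NZ fun z => G n z - G n a := by
      obtain ⟨u, hu, w, hw, hne⟩ := hn n
      exact NC.nz ⟨u, hu, w, hw, fun h => hne (sub_left_injective h)⟩
    refine ((ev_ne ((hG n).1.sub_const _) h5 ha).frequently.filter_mono
      nhdsWithin_le_nhds).mono fun z hz => sub_ne_zero.1 hz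

theorem main (hd : ∀ n, DifferentiableOn ℂ (f n) disc) (hm : ∀ n, MapsTo (f n) disc disc)
    (hF : ∀ z ∈ disc, Tendsto (fun m => orb f 0 m z) atTop (𝓝 (F z))) (hn : NC F)
    (ha : a ∈ disc) :
    a ∈ Exc F ↔ ∃ n, ∃ c ∈ Exc (f n), Tendsto (fun m => orb f (n + 1) m c) atTop (𝓝 a) := by
  choose G hG hl he using exists_tail_lim hd hm hF hn
  have ho := orb_good hd hm 0
  have hon : ∀ n, NC (orb f 0 n) := fun n => nc_of_tendsto (fun z hz => tail_tendsto hF n hz) hn
  have hs : ∀ n z, orb f 0 (n + 1) z = f n (orb f 0 n z) := fun n z => by rw [orb, zero_add]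
  have hGn : ∀ n, NC (G n) := fun n => by
    obtain ⟨z, hz, w, hw, hne⟩ := hn
    exact ⟨_, (ho n).2 hz, _, (ho n).2 hw, by rwa [he n z hz, he n w hw]⟩
  have hfn : ∀ n, NC (f n) := fun n => by
    obtain ⟨z, hz, w, hw, hne⟩ := hon (n + 1)
    exact ⟨_, (ho n).2 hz, _, (ho n).2 hw, by rwa [← hs, ← hs]⟩
  have hGm : ∀ n, MapsTo (G n) disc disc := fun n => (hG n).maps (hGn n)
  have hFS : Sch F := sch_lim (fun m => sch_of_maps (ho m).1 (ho m).2) hF
  have hFm := hFS.maps hn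
  constructor
  · rintro ⟨-, hB⟩
    by_contra hc
    refine hB (blaschke_of_mx (h := fun z => z) ((mob_sch ha).comp hFS.1 hFm)
      (mob_comp_nc ha hFS.1 hFm hn) differentiableOn_id (mapsTo_id _) ?_)
    have h1 : ∀ n, ∀ b ∈ disc, G n b = a → Mx fun z => mob b (orb f 0 n z) := by
      intro n
      induction n with
      | zero => exact fun b hb _ => mx_mob hb
      | succ n ih =>
        intro b hb hba
        simp only [hs]
        refine mx_two hb (hd n) (hm n) (ho n).1 (ho n).2 (hon n) ?_ fun c hc' hcb => ih c hc' ?_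
        · by_contra h2
          exact hc ⟨n, b, ⟨hb, h2⟩, hba ▸ hl (n + 1) b hb⟩
        · refine tendsto_nhds_unique ((hl n c hc').comp (tendsto_add_atTop_nat 1)) ?_
          refine (hba ▸ hl (n + 1) b hb).congr fun m => ?_
          change _ = orb f n (m + 1) c
          rw [add_comm m 1, orb_add, ← hcb]
          rfl
    obtain ⟨U, hU⟩ := Ultrafilter.exists_le (atTop : Filter ℕ)
    obtain ⟨L, hL, hl'⟩ := montel U hG
    have h2 : ∀ w ∈ disc, L w = w := by
      refine eq_of_comp hL.1 differentiableOn_id hFS.1 hFm hn fun z hz => ?_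
      refine tendsto_nhds_unique (tendsto_joint hG (hFm hz) ((hF z hz).mono_left hU)
        (hl' _ (hFm hz))) (tendsto_const_nhds.congr fun n => (he n z hz).symm)
    refine mx_lim ((mob_sch ha).comp hFS.1 hFm).1 (mob_comp_nc ha hFS.1 hFm hn).nz
      fun z hz ε hε => ?_
    have h3 : ContinuousAt (fun p : ℂ × ℂ => ‖mob p.1 p.2‖) (a, F z) :=
      (ContinuousAt.div (f := fun p : ℂ × ℂ => p.2 - p.1) (g := fun p : ℂ × ℂ => 1 - conj p.1 * p.2)
        (by fun_prop) (by fun_prop) (den_ne ha (hFm hz))).norm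
    obtain ⟨δ, hδ, h4⟩ := Metric.continuousAt_iff.1 h3 ε hε
    obtain ⟨ρ, hρ, h5⟩ := Metric.nhds_basis_closedBall.mem_iff.1 (isOpen_ball.mem_nhds ha)
    have h6 : closedBall a (min ρ (δ / 2)) ⊆ disc :=
      (closedBall_subset_closedBall (min_le_left _ _)).trans h5
    obtain ⟨n, ⟨b, hb, hba⟩, h7⟩ := ((hurwitz (l := U) hG hGn
      (fun w hw => by simpa only [h2 w hw] using hl' w hw) ha (lt_min hρ (half_pos hδ)) h6).and
      (hU (Metric.tendsto_nhds.1 (hF z hz) δ hδ))).exists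
    obtain ⟨k, hk, hk'⟩ := ((mob_sch ha).comp (hG n).1 (hGm n)).div (h6 hb)
      ((mob_eq_zero ha (hGm n (h6 hb))).2 hba)
    refine ⟨fun z => mob b (orb f 0 n z), fun z => k (orb f 0 n z), h1 n b (h6 hb) hba,
      (mob_sch (h6 hb)).comp (ho n).1 (ho n).2, hk.comp (ho n).1 (ho n).2, fun w hw => ?_, ?_⟩
    · rw [← he n w hw]
      exact hk' _ ((ho n).2 hw)
    · have h8 := h4 (x := (b, orb f 0 n z)) (by
        rw [Prod.dist_eq]
        exact max_lt (((mem_closedBall.1 hb).trans (min_le_right _ _)).trans_lt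
          (half_lt_self hδ)) h7)
      rw [Real.dist_eq] at h8
      linarith [(abs_lt.1 h8).2]
  · rintro ⟨n, c, ⟨hc, hB⟩, ht⟩
    refine ⟨ha, fun hA => hB ?_⟩
    have h1 : G (n + 1) c = a := tendsto_nhds_unique (hl _ c hc) ht
    have h2 := mx_inner ha (hG (n + 1)).1 (hGm _) (ho (n + 1)).1 (ho (n + 1)).2
      (hA.mx.congr fun z hz => by rw [he _ z hz]) hc h1
    simp only [hs] at h2
    exact blaschke_of_mx ((mob_sch hc).comp (hd n) (hm n)) (mob_comp_nc hc (hd n) (hm n) (hfn n))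
      (ho n).1 (ho n).2 h2

end Pool.Agent.P.MP_4d1c53_an
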