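import Pool.Agent.P.MP_4d1c53_an.C

/-! Elementary estimates for Blaschke factors and products. -/

open Complex ComplexConjugate Filter Topology Metric Set

noncomputable section

namespace Pool.Agent.P.MP_4d1c53_an

variable {g u k : ℂ → ℂ} {a w z ζ : ℂ}

theorem den_ge (hw : ‖w‖ ≤ 1) : 1 - ‖a‖ ≤ ‖1 - conj a * w‖ := by
  have := norm_sub_norm_le (1 : ℂ) (conj a * w)
  rw [norm_one, norm_mul, RCLike.norm_conj] at this
  nlinarith [norm_nonneg a]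

theorem den_le (ha : ‖a‖ ≤ 1) (hw : ‖w‖ ≤ 1) : ‖1 - conj a * w‖ ≤ 2 := by
  have := norm_sub_le (1 : ℂ) (conj a * w)
  rw [norm_one, norm_mul, RCLike.norm_conj] at this
  nlinarith [norm_nonneg a, norm_nonneg w]

theorem den_pos (ha : a ∈ disc) (hw : ‖w‖ ≤ 1) : 0 < ‖1 - conj a * w‖ :=
  (sub_pos.2 (mem_disc.1 ha)).trans_le (den_ge hw)

theorem q_eq (ha : a ∈ disc) (hw : ‖w‖ ≤ 1) :
    (1 - ‖mob a w‖ ^ 2) * ‖1 - conj a * w‖ ^ 2 = (1 - ‖a‖ ^ 2) * (1 - ‖w‖ ^ 2) := by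
  have h := (den_pos ha hw).ne'
  rw [mob, norm_div, div_pow, sub_mul, div_mul_cancel₀ _ (pow_ne_zero 2 h)]
  simp only [Complex.sq_norm, normSq_apply, sub_re, sub_im, mul_re, mul_im, conj_re, conj_im,
    one_re, one_im]
  ring

theorem sq_le_one' (hw : ‖w‖ ≤ 1) : 0 ≤ 1 - ‖w‖ ^ 2 :=
  sub_nonneg.2 (pow_le_one₀ (norm_nonneg _) hw)

theorem norm_mob_le (ha : a ∈ disc) (hw : ‖w‖ ≤ 1) : ‖mob a w‖ ≤ 1 := by
  have h1 := q_eq ha hw
  have h2 := mul_nonneg (sq_le_one' (mem_disc.1 ha).le) (sq_le_one' hw)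
  rw [← h1] at h2
  have h3 := nonneg_of_mul_nonneg_left h2 (pow_pos (den_pos ha hw) 2)
  exact (sq_le_one_iff₀ (norm_nonneg _)).1 (by linarith)

theorem Sch.mob (hg : Sch g) (ha : a ∈ disc) : Sch fun z => mob a (g z) :=
  ⟨(hg.1.sub_const a).div ((hg.1.const_mul _).const_sub 1)
    fun z hz => norm_pos_iff.1 (den_pos ha (hg.2 z hz)),
    fun z hz => norm_mob_le ha (hg.2 z hz)⟩

theorem q_le (ha : a ∈ disc) (hw : ‖w‖ ≤ 1) :
    (1 - ‖mob a w‖ ^ 2) * (1 - ‖a‖) ≤ 2 * (1 - ‖w‖ ^ 2) := by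
  have h0 := sub_pos.2 (mem_disc.1 ha)
  have h1 := q_eq ha hw
  have h2 := mul_le_mul_of_nonneg_left (pow_le_pow_left₀ h0.le (den_ge (a := a) hw) 2)
    (sq_le_one' (norm_mob_le ha hw))
  rw [h1] at h2
  refine le_of_mul_le_mul_right ?_ h0
  have h3 := mul_nonneg (sq_le_one' hw) (sq_nonneg (1 - ‖a‖))
  nlinarith

theorem mob_sub_le (ha : ‖a‖ ≤ 1 / 2) (hw : ‖w‖ ≤ 1) : ‖mob a w - w‖ ≤ 4 * ‖a‖ := by
  have ha' : a ∈ disc := mem_disc.2 (by linarith)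
  have h0 := den_pos ha' hw
  have h1 : mob a w - w = (conj a * w ^ 2 - a) / (1 - conj a * w) := by
    rw [mob, div_sub' (norm_pos_iff.1 h0)]
    ring
  have h2 := norm_sub_le (conj a * w ^ 2) a
  rw [norm_mul, RCLike.norm_conj, norm_pow] at h2
  rw [h1, norm_div, div_le_iff₀ h0]
  nlinarith [den_ge (a := a) hw, norm_nonneg a, sq_le_one' hw]

theorem le_mob (ha : a ∈ disc) (hw : ‖w‖ ≤ 1) : ‖w - a‖ ≤ 2 * ‖mob a w‖ := by
  rw [mob, norm_div, ← mul_div_assoc, le_div_iff₀ (den_pos ha hw)]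
  nlinarith [den_le (mem_disc.1 ha).le hw, norm_nonneg (w - a)]

theorem norm_factor (h0 : a ≠ 0) (z : ℂ) : ‖factor a z‖ = ‖mob a z‖ := by
  rw [factor_eq, norm_mul, norm_unit h0, one_mul]

theorem norm_rad (hζ : ‖ζ‖ = 1) {t : ℝ} (ht : t ≤ 1) : ‖((1 - t : ℝ) : ℂ) * ζ‖ = 1 - t := by
  rw [norm_mul, norm_real, hζ, mul_one, Real.norm_of_nonneg (by linarith)]

theorem den_dist (hζ : ‖ζ‖ = 1) (ha : ‖a‖ ≤ 1) {t : ℝ} (ht : 0 ≤ t) :
    |‖1 - conj a * (((1 - t : ℝ) : ℂ) * ζ)‖ - ‖ζ - a‖| ≤ t := by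
  have h1 : ‖ζ - a‖ = ‖1 - conj a * ζ‖ := by
    have h2 : conj ζ * ζ = 1 := by rw [conj_mul', hζ]; simp
    rw [← h2, ← sub_mul, norm_mul, hζ, mul_one, ← map_sub, RCLike.norm_conj]
  rw [h1]
  refine (abs_norm_sub_norm_le _ _).trans ?_
  have h3 : 1 - conj a * (((1 - t : ℝ) : ℂ) * ζ) - (1 - conj a * ζ) = t * (conj a * ζ) := by
    push_cast
    ring
  rw [h3, norm_mul, norm_mul, hζ, RCLike.norm_conj, norm_real, Real.norm_of_nonneg ht]
  nlinarith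

theorem q_upper (ha : a ∈ disc) (h0 : a ≠ 0) (hζ : ‖ζ‖ = 1) {t : ℝ} (ht : 0 < t) (ht1 : t ≤ 1) :
    1 - ‖factor a (((1 - t : ℝ) : ℂ) * ζ)‖ ^ 2 ≤
      16 * t * ((1 - ‖a‖) / max ‖ζ - a‖ t ^ 2) := by
  have hn := norm_rad hζ ht1
  have ha1 := mem_disc.1 ha
  have hw : ‖((1 - t : ℝ) : ℂ) * ζ‖ ≤ 1 := by linarith
  have h1 := q_eq ha hw
  have h2 := (abs_le.1 (den_dist hζ ha1.le ht.le)).1
  have h3 : t ≤ ‖1 - conj a * (((1 - t : ℝ) : ℂ) * ζ)‖ := by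
    have := norm_sub_norm_le (1 : ℂ) (conj a * (((1 - t : ℝ) : ℂ) * ζ))
    rw [norm_one, norm_mul, RCLike.norm_conj, hn] at this
    nlinarith
  have h4 : max ‖ζ - a‖ t ≤ 2 * ‖1 - conj a * (((1 - t : ℝ) : ℂ) * ζ)‖ :=
    max_le (by linarith) (by linarith)
  have h5 : 0 < max ‖ζ - a‖ t := lt_max_of_lt_right ht
  have h6 := mul_le_mul_of_nonneg_left (pow_le_pow_left₀ h5.le h4 2)
    (sq_le_one' (norm_mob_le ha hw))
  rw [norm_factor h0, ← mul_div_assoc, le_div_iff₀ (pow_pos h5 2)]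
  rw [hn] at h1
  have h7 : (1 - ‖a‖ ^ 2) * (1 - (1 - t) ^ 2) ≤ (2 * (1 - ‖a‖)) * (2 * t) :=
    mul_le_mul (by nlinarith) (by nlinarith) (by nlinarith) (by linarith)
  nlinarith

theorem q_lower (ha : a ∈ disc) (h0 : a ≠ 0) (hζ : ‖ζ‖ = 1) {s : ℝ} (hs : 0 < s)
    (hs1 : 2 * s ≤ 1) (hd : ‖ζ - a‖ ≤ s) :
    2 / (9 * s) * (1 - ‖a‖) ≤ 1 - ‖factor a (((1 - 2 * s : ℝ) : ℂ) * ζ)‖ ^ 2 := by
  have hn := norm_rad hζ hs1
  have ha1 := mem_disc.1 ha
  have hw : ‖((1 - 2 * s : ℝ) : ℂ) * ζ‖ ≤ 1 := by linarith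
  have h1 := q_eq ha hw
  have h2 := (abs_le.1 (den_dist hζ ha1.le (t := 2 * s) (by linarith))).2
  have h4 : ‖1 - conj a * (((1 - 2 * s : ℝ) : ℂ) * ζ)‖ ≤ 3 * s := by linarith
  have h6 := mul_le_mul_of_nonneg_left (pow_le_pow_left₀ (norm_nonneg _) h4 2)
    (sq_le_one' (norm_mob_le ha hw))
  rw [h1, hn] at h6
  have h7 : (1 - ‖a‖) * (2 * s) ≤ (1 - ‖a‖ ^ 2) * (1 - (1 - 2 * s) ^ 2) :=
    mul_le_mul (by nlinarith [norm_nonneg a]) (by nlinarith) (by linarith) (sq_le_one' ha1.le)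
  rw [norm_factor h0, div_mul_eq_mul_div, div_le_iff₀ (by positivity)]
  refine le_of_mul_le_mul_right ?_ hs
  nlinarith

theorem q_mul (hz : ‖z‖ ≤ 1) (hw : ‖w‖ ≤ 1) :
    1 - ‖z * w‖ ^ 2 ≤ (1 - ‖z‖ ^ 2) + (1 - ‖w‖ ^ 2) := by
  rw [norm_mul]
  nlinarith [mul_nonneg (sq_le_one' hz) (sq_le_one' hw)]

theorem norm_prod_le' {ι : Type} (s : Finset ι) {f : ι → ℂ} (hf : ∀ i, ‖f i‖ ≤ 1) :
    ‖∏ i ∈ s, f i‖ ≤ 1 := by
  rw [norm_prod]
  exact Finset.prod_le_one (fun _ _ => norm_nonneg _) fun i _ => hf i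

theorem q_prod {ι : Type} (s : Finset ι) {f : ι → ℂ} (hf : ∀ i, ‖f i‖ ≤ 1) :
    1 - ‖∏ i ∈ s, f i‖ ^ 2 ≤ ∑ i ∈ s, (1 - ‖f i‖ ^ 2) := by
  classical
  induction s using Finset.induction_on with
  | empty => simp
  | insert i s hi ih =>
    rw [Finset.prod_insert hi, Finset.sum_insert hi]
    linarith [q_mul (hf i) (norm_prod_le' s hf)]

theorem q_prod' {ι : Type} (s : Finset ι) {f : ι → ℂ} (hf : ∀ i, ‖f i‖ ≤ 1) :
    ‖∏ i ∈ s, f i‖ ^ 2 * (1 + ∑ i ∈ s, (1 - ‖f i‖ ^ 2)) ≤ 1 := by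
  classical
  induction s using Finset.induction_on with
  | empty => simp
  | insert i s hi ih =>
    rw [Finset.prod_insert hi, Finset.sum_insert hi, norm_mul, mul_pow]
    have h1 : 0 ≤ ∑ i ∈ s, (1 - ‖f i‖ ^ 2) := Finset.sum_nonneg fun i _ => sq_le_one' (hf i)
    have h2 := sq_le_one' (hf i)
    refine le_trans ?_ ih
    rw [mul_right_comm, mul_comm]
    refine mul_le_mul_of_nonneg_left ?_ (sq_nonneg _)
    nlinarith [mul_nonneg h1 h2, sq_nonneg (1 - ‖f i‖ ^ 2)]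

theorem q_lim {ι : Type} {f : ι → ℂ} {η : ℝ} (hP : HasProd f w) (hf : ∀ i, ‖f i‖ ≤ 1)
    (h : ∀ s : Finset ι, ∑ i ∈ s, (1 - ‖f i‖ ^ 2) ≤ η) : 1 - ‖w‖ ^ 2 ≤ η :=
  le_of_tendsto' (((Tendsto.norm hP).pow 2).const_sub 1) fun s => (q_prod s hf).trans (h s)

/-- A Blaschke product is a finite product times a product with small total mass. -/
theorem split (hu : Sch u) (hx : Mx u) {η : ℝ} (hη : 0 < η) :
    ∃ (ι : Type) (a : ι → ℂ) (p k : ℂ → ℂ) (M : ℝ), (∀ i, a i ∈ disc ∧ a i ≠ 0) ∧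
      (∀ s : Finset ι, ∑ i ∈ s, (1 - ‖a i‖) ≤ η) ∧ Sch p ∧ Sch k ∧ 0 < M ∧ ∀ z ∈ disc,
        HasProd (fun i => factor (a i) z) (k z) ∧ u z = p z * k z ∧
          1 - ‖p z‖ ^ 2 ≤ M * (1 - ‖z‖) := by
  classical
  have hn : NZ u := by
    by_contra h
    have h1 := hx (fun _ => 2) (differentiableOn_const _) (fun z hz => by
      rw [not_ne_iff.1 fun h2 => h ⟨z, hz, h2⟩]
      simp) 0 zero_mem_disc
    norm_num at h1
  obtain ⟨m, ι, a, P, S, ha, hs, hS, hP, he⟩ := riesz hu hn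
  have hid : Sch fun z : ℂ => z := sch_of_maps differentiableOn_id (mapsTo_id _)
  have h1 := hx (fun z => (S z)⁻¹) (hS.1.inv fun z hz => (he z hz).2.2) fun z hz => by
    rw [(he z hz).2.1, mul_assoc, mul_inv_cancel₀ (he z hz).2.2, mul_one]
    exact ((hid.pow m).mul hP).2 z hz
  obtain ⟨F, hF⟩ := summable_iff_vanishing_norm.1 hs η hη
  have hfs := fun i => factor_sch (ha i).1 (ha i).2
  have hk : ∀ z ∈ disc, HasProd (fun i : ((F : Set ι)ᶜ : Set ι) => factor (a i) z)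
      (∏' i : ((F : Set ι)ᶜ : Set ι), factor (a i) z) := fun z hz =>
    (multipliable_factor (fun i : ((F : Set ι)ᶜ : Set ι) => ha i) (hs.subtype _) hz).hasProd
  refine ⟨((F : Set ι)ᶜ : Set ι), fun i => a i, fun z => z ^ m * S z * ∏ i ∈ F, factor (a i) z,
    fun z => ∏' i : ((F : Set ι)ᶜ : Set ι), factor (a i) z,
    1 + 2 * m + ∑ i ∈ F, 4 / (1 - ‖a i‖), fun i => ha i, fun s => ?_,
    ((hid.pow m).mul hS).mul (sch_prod F fun i _ => hfs i),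
    sch_lim (l := atTop) (fun s : Finset ((F : Set ι)ᶜ : Set ι) =>
      sch_prod s fun i _ => hfs i) hk, ?_,
    fun z hz => ⟨hk z hz, ?_, ?_⟩⟩
  · have h2 := hF (s.map (Function.Embedding.subtype _)) (Finset.disjoint_left.2 fun i hi => by
      obtain ⟨j, -, rfl⟩ := Finset.mem_map.1 hi
      exact j.2)
    rw [Finset.sum_map] at h2
    exact (le_abs_self _).trans h2.le
  · have : 0 ≤ ∑ i ∈ F, 4 / (1 - ‖a i‖) :=
      Finset.sum_nonneg fun i _ => div_nonneg (by norm_num) (sub_nonneg.2 (mem_disc.1 (ha i).1).le)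
    positivity
  · rw [(he z hz).2.1, (he z hz).1.unique
      ((F.hasProd fun i => factor (a i) z).mul_compl (hk z hz))]
    ring
  · have hz1 := mem_disc.1 hz
    have h2 : ‖S z‖ = 1 := le_antisymm (hS.2 z hz) (by
      have := h1 z hz
      rwa [norm_inv, inv_le_one₀ (norm_pos_iff.2 (he z hz).2.2)] at this)
    have h3 := q_mul (((hid.pow m).mul hS).2 z hz) ((sch_prod F fun i _ => hfs i).2 z hz)
    have h4 := q_prod (Finset.range m) (f := fun _ => z) fun _ => hz1.le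
    simp only [Finset.prod_const, Finset.sum_const, Finset.card_range, nsmul_eq_mul] at h4
    have h5 : ∑ i ∈ F, (1 - ‖factor (a i) z‖ ^ 2) ≤ ∑ i ∈ F, 4 / (1 - ‖a i‖) * (1 - ‖z‖) := by
      refine Finset.sum_le_sum fun i _ => ?_
      have h6 := q_le (ha i).1 hz1.le
      rw [norm_factor (ha i).2, div_mul_eq_mul_div, le_div_iff₀ (sub_pos.2 (mem_disc.1 (ha i).1))]
      nlinarith [sq_nonneg (1 - ‖z‖)]
    rw [← Finset.sum_mul] at h5
    have h6 := q_prod F fun i => (hfs i).2 z hz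
    have h7 : (m : ℝ) * (1 - ‖z‖ ^ 2) ≤ m * (2 * (1 - ‖z‖)) :=
      mul_le_mul_of_nonneg_left (by nlinarith [sq_nonneg (1 - ‖z‖)]) (Nat.cast_nonneg m)
    rw [norm_mul (z ^ m), h2, mul_one] at h3
    nlinarith

/-- A potential estimate from a bound on the mass of discs. -/
theorem pot {ι : Type} (F : Finset ι) {μ d : ι → ℝ} (hμ : ∀ i, 0 ≤ μ i) (hd : ∀ i, d i ≤ 2)
    {L t₀ : ℝ} (hL : 0 ≤ L) (ht₀ : 0 < t₀)
    (h : ∀ s, t₀ ≤ s → ∑ i ∈ F with d i ≤ s, μ i ≤ L * s) :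
    ∑ i ∈ F, μ i / max (d i) t₀ ^ 2 ≤ 4 * L / t₀ := by
  have key : ∀ n : ℕ, ∀ t, t₀ ≤ t → 2 ≤ 2 ^ n * t → ∑ i ∈ F, μ i / max (d i) t ^ 2 ≤ 4 * L / t := by
    intro n
    induction n with
    | zero =>
      intro t ht h2
      have ht0 : 0 < t := ht₀.trans_le ht
      have h3 : ∀ i, d i ≤ t := fun i => by linarith [hd i]
      have h4 := h t ht
      rw [Finset.filter_true_of_mem fun i _ => h3 i] at h4
      simp only [max_eq_right (h3 _)]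
      rw [← Finset.sum_div, div_le_div_iff₀ (by positivity) ht0]
      nlinarith [mul_nonneg hL (sq_nonneg t)]
    | succ n ih =>
      intro t ht h2
      have ht0 : 0 < t := ht₀.trans_le ht
      have h3 := ih (2 * t) (by linarith) (by rw [pow_succ] at h2; linarith)
      have h4 := h (2 * t) (by linarith)
      rw [Finset.sum_filter] at h4
      have h5 : ∀ i ∈ F, μ i / max (d i) t ^ 2 ≤ μ i / max (d i) (2 * t) ^ 2 +
          (if d i ≤ 2 * t then μ i else 0) / t ^ 2 := by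
        intro i _
        have := hμ i
        split_ifs with h6
        · have h7 : μ i / max (d i) t ^ 2 ≤ μ i / t ^ 2 := by
            gcongr
            exact le_max_right _ _
          have h8 : 0 ≤ μ i / max (d i) (2 * t) ^ 2 := by positivity
          linarith
        · rw [max_eq_left (by linarith), max_eq_left (by linarith)]
          simp
      refine (Finset.sum_le_sum h5).trans ?_
      rw [Finset.sum_add_distrib, ← Finset.sum_div]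
      have h6 := div_le_div_of_nonneg_right h4 (sq_nonneg t)
      have h7 : 4 * L / (2 * t) + L * (2 * t) / t ^ 2 = 4 * L / t := by
        field_simp
        ring
      linarith
  obtain ⟨n, hn⟩ := pow_unbounded_of_one_lt (2 / t₀) (one_lt_two (α := ℝ))
  exact key n t₀ le_rfl ((div_lt_iff₀ ht₀).1 hn).le

theorem select {ι : Type} (F : Finset ι) {μ : ι → ℝ} {L s : ℝ} (hL : 0 ≤ L) (hs : 0 ≤ s)
    (hμ : ∀ i ∈ F, μ i ≤ s) (h : L ≤ ∑ i ∈ F, μ i) :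
    ∃ G ⊆ F, L ≤ ∑ i ∈ G, μ i ∧ ∑ i ∈ G, μ i ≤ L + s := by
  classical
  induction F using Finset.induction_on with
  | empty => exact ⟨∅, subset_rfl, h, by simpa using add_nonneg hL hs⟩
  | insert i F hi ih =>
    by_cases h1 : L ≤ ∑ i ∈ F, μ i
    · obtain ⟨G, hG, h2⟩ := ih (fun j hj => hμ j (Finset.mem_insert_of_mem hj)) h1
      exact ⟨G, hG.trans (Finset.subset_insert _ _), h2⟩
    · refine ⟨_, subset_rfl, h, ?_⟩
      rw [Finset.sum_insert hi]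
      linarith [hμ i (Finset.mem_insert_self _ _)]

end Pool.Agent.P.MP_4d1c53_an
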