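import Mathlib

/-! Blaschke products, exceptional sets and forward compositions. -/

open Complex ComplexConjugate

noncomputable section

namespace Pool.Agent.P.MP_4d1c53_an

/-- The open unit disc. -/
abbrev disc : Set ℂ := Metric.ball 0 1

/-- The Blaschke factor with zero `a`. -/
def factor (a z : ℂ) : ℂ := (‖a‖ : ℂ) / a * ((a - z) / (1 - conj a * z))

/-- `B` is on the disc a nonconstant function `e^(iθ) z^m ∏ factor (a i) z`. -/
def IsBlaschke (B : ℂ → ℂ) : Prop :=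
  (∃ z ∈ disc, ∃ w ∈ disc, B z ≠ B w) ∧
    ∃ (θ : ℝ) (m : ℕ) (ι : Type) (a : ι → ℂ) (P : ℂ → ℂ), (∀ i, a i ∈ disc ∧ a i ≠ 0) ∧
      Summable (fun i => 1 - ‖a i‖) ∧
      ∀ z ∈ disc, HasProd (fun i => factor (a i) z) (P z) ∧ B z = exp (θ * I) * z ^ m * P z

/-- The automorphism `w ↦ (w - a) / (1 - conj a * w)`. -/
def mob (a w : ℂ) : ℂ := (w - a) / (1 - conj a * w)

/-- The exceptional set of `f`. -/
def Exc (f : ℂ → ℂ) : Set ℂ := {a | a ∈ disc ∧ ¬ IsBlaschke fun z => mob a (f z)}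

/-- `orb f n m = f (n + m - 1) ∘ ⋯ ∘ f (n + 1) ∘ f n`, with `m` maps. -/
def orb (f : ℕ → ℂ → ℂ) (n : ℕ) : ℕ → ℂ → ℂ
  | 0 => fun z => z
  | m + 1 => fun z => f (n + m) (orb f n m z)

end Pool.Agent.P.MP_4d1c53_an
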