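import Pool.Agent.P.MP_4d1c53_an.Defs

/-! Inner functions and indestructible Blaschke products. -/

open Complex Filter Topology

noncomputable section

namespace Pool.Agent.P.MP_4d1c53_an

/-- Holomorphic on the disc, bounded by one, with modulus tending to one along almost every
radius. -/
def IsInner (u : ℂ → ℂ) : Prop :=
  DifferentiableOn ℂ u disc ∧ (∀ z ∈ disc, ‖u z‖ ≤ 1) ∧
    ∀ᵐ θ : ℝ, Tendsto (fun r : ℝ => ‖u (r * exp (θ * I))‖) (𝓝[<] 1) (𝓝 1)

/-- A Blaschke product `B` such that `T ∘ B` is a Blaschke product for every automorphism `T`. -/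
def Indestructible (B : ℂ → ℂ) : Prop :=
  IsBlaschke B ∧ ∀ φ : ℝ, ∀ a ∈ disc, IsBlaschke fun z => exp (φ * I) * mob a (B z)

end Pool.Agent.P.MP_4d1c53_an
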