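import Pool.Agent.P.MP_4d1c53_an.D
import Pool.Agent.P.MP_4d1c53_an.Defs2

/-! Circle averages, the theorem of Frostman and a Poisson estimate. -/

open Complex ComplexConjugate Filter Topology Metric Set MeasureTheory Real

noncomputable section

namespace Pool.Agent.P.MP_4d1c53_an

variable {g u G S : ℂ → ℂ} {a p w z : ℂ} {r ρ : ℝ}

/-- The averages of `1 - ‖g‖` over circles become small. -/
def WI (g : ℂ → ℂ) : Prop :=
  ∀ η > 0, ∃ r, 0 < r ∧ r < 1 ∧ circleAverage (fun z => 1 - ‖g z‖) 0 r ≤ η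

theorem sph_sub (h0 : 0 < r) (h1 : r < 1) : sphere (0 : ℂ) |r| ⊆ disc := fun z hz => by
  rw [mem_disc, mem_sphere_zero_iff_norm.1 hz, abs_of_pos h0]
  exact h1

theorem cb_sub (h0 : 0 < r) (h1 : r < 1) : closedBall (0 : ℂ) |r| ⊆ disc :=
  closedBall_subset_ball (by rwa [abs_of_pos h0])

theorem cm_mem (h0 : 0 < r) (h1 : r < 1) (θ : ℝ) : circleMap 0 r θ ∈ disc :=
  sph_sub h0 h1 (circleMap_mem_sphere' 0 r θ)

theorem cint {f : ℂ → ℝ} (hf : ContinuousOn f disc) (h0 : 0 < r) (h1 : r < 1) :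
    CircleIntegrable f 0 r := (hf.mono (sph_sub h0 h1)).circleIntegrable'

theorem IsInner.wi (hu : IsInner u) : WI u := by
  intro η hη
  have hc : ContinuousOn (fun z => 1 - ‖u z‖) disc :=
    continuousOn_const.sub hu.1.continuousOn.norm
  have he : ∀ᶠ r : ℝ in 𝓝[<] 1, r ∈ Ioo (0 : ℝ) 1 := Ioo_mem_nhdsLT one_pos
  have h1 := intervalIntegral.tendsto_integral_filter_of_dominated_convergence (μ := volume)
    (a := 0) (b := 2 * π) (l := 𝓝[<] (1 : ℝ)) (F := fun r θ => 1 - ‖u (circleMap 0 r θ)‖)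
    (f := fun _ => 0) (fun _ => 1) (he.mono fun r hr =>
      (hc.comp_continuous (continuous_circleMap 0 r) (cm_mem hr.1 hr.2)).aestronglyMeasurable)
    (he.mono fun r hr => Eventually.of_forall fun θ _ => by
      rw [Real.norm_of_nonneg (sub_nonneg.2 (hu.2.1 _ (cm_mem hr.1 hr.2 θ)))]
      linarith [norm_nonneg (u (circleMap 0 r θ))])
    intervalIntegrable_const (hu.2.2.mono fun θ hθ _ => by
      simpa [circleMap] using hθ.const_sub 1)
  have h2 := h1.const_mul (2 * π)⁻¹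
  simp only [intervalIntegral.integral_zero, mul_zero] at h2
  obtain ⟨r, h3, h4⟩ := (he.and (h2.eventually (gt_mem_nhds hη))).exists
  exact ⟨r, h3.1, h3.2, h4.le⟩

theorem Mx.wi (hx : Mx u) (hu : Sch u) : WI u := by
  intro η hη
  obtain ⟨ι, a, p, k, M, ha, hs, hp, hk, hM, he⟩ := split hu hx (η := η / 4) (by positivity)
  have h1 : 1 - ‖k 0‖ ^ 2 ≤ η / 2 := by
    refine q_lim (he 0 zero_mem_disc).1
      (fun i => (factor_sch (ha i).1 (ha i).2).2 0 zero_mem_disc) fun s => ?_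
    have h2 : ∑ i ∈ s, (1 - ‖factor (a i) 0‖ ^ 2) ≤ ∑ i ∈ s, 2 * (1 - ‖a i‖) := by
      refine Finset.sum_le_sum fun i _ => ?_
      rw [norm_factor (ha i).2]
      simp only [mob, zero_sub, mul_zero, sub_zero, div_one, norm_neg]
      nlinarith [sq_nonneg (1 - ‖a i‖)]
    rw [← Finset.mul_sum] at h2
    linarith [hs s]
  obtain ⟨ω, hω, h2⟩ := Complex.exists_norm_eq_mul_self (k 0)
  obtain ⟨t, ht, ht1, htM⟩ : ∃ t : ℝ, 0 < t ∧ t ≤ 1 / 2 ∧ M * t ≤ η / 2 :=
    ⟨min (1 / 2) (η / 2 / M), by positivity, min_le_left _ _,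
      (le_div_iff₀' hM).1 (min_le_right _ _)⟩
  have h0 : 0 < 1 - t := by linarith
  have h3 : 1 - t < 1 := by linarith
  have hd : DifferentiableOn ℂ (fun z => ((η / 2 + 1 : ℝ) : ℂ) - ω * k z) disc :=
    (hk.1.const_mul ω).const_sub _
  have h4 := InnerProductSpace.HarmonicOnNhd.circleAverage_eq (c := 0) (R := 1 - t)
    fun z hz => (an hd z (cb_sub h0 h3 hz)).harmonicAt_re
  refine ⟨1 - t, h0, h3, (circleAverage_mono
    (cint (continuousOn_const.sub hu.1.continuousOn.norm) h0 h3)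
    (cint (continuous_re.comp_continuousOn hd.continuousOn) h0 h3) fun z hz => ?_).trans
    (h4.le.trans ?_)⟩
  · have hz' := sph_sub h0 h3 hz
    have h5 := (he z hz').2.2
    rw [mem_sphere_zero_iff_norm.1 hz, abs_of_pos h0] at h5
    have h6 := re_le_norm (ω * k z)
    rw [norm_mul, hω, one_mul] at h6
    simp only [Function.comp, sub_re, ofReal_re, Pi.sub_apply]
    rw [(he z hz').2.1, norm_mul]
    nlinarith [hp.2 z hz', hk.2 z hz', norm_nonneg (p z), norm_nonneg (k z)]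
  · rw [← h2, sub_re, ofReal_re, ofReal_re]
    nlinarith [hk.2 0 zero_mem_disc, norm_nonneg (k 0)]

theorem lint_eq {f : ℂ → ℝ} (hf : CircleIntegrable f 0 r) (h0 : ∀ᵐ θ, 0 ≤ f (circleMap 0 r θ)) :
    ∫⁻ θ in Ioc 0 (2 * π), ENNReal.ofReal (f (circleMap 0 r θ)) =
      ENNReal.ofReal (2 * π * circleAverage f 0 r) := by
  rw [← ofReal_integral_eq_lintegral_ofReal hf.1 (ae_restrict_of_ae h0), circleAverage_def,
    intervalIntegral.integral_of_le two_pi_pos.le, smul_eq_mul,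
    mul_inv_cancel_left₀ two_pi_pos.ne']

theorem nlog_nonneg (hz : ‖z‖ ≤ 1) : 0 ≤ -Real.log ‖z‖ :=
  neg_nonneg.2 (Real.log_nonpos (norm_nonneg _) hz)

theorem avg_log_ge (h0 : 0 < ρ) (p : ℂ) :
    Real.log ρ ≤ circleAverage (fun t => Real.log ‖t - p‖) 0 ρ := by
  rw [circleAverage_log_norm_sub_const_eq_log_radius_add_posLog h0.ne']
  linarith [posLog_nonneg (x := ρ⁻¹ * ‖0 - p‖)]

theorem lint_mob (h0 : 0 < ρ) (h1 : ρ < 1) (hp : ‖p‖ ≤ 1) :
    ∫⁻ θ in Ioc 0 (2 * π), ENNReal.ofReal (-Real.log ‖mob (circleMap 0 ρ θ) p‖) ≤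
      ENNReal.ofReal (2 * π / ρ * (1 - ‖p‖)) := by
  have hne : ∀ t ∈ disc, 1 - conj p * t ≠ 0 := fun t ht h => by
    have := den_pos ht hp
    rw [← RCLike.norm_conj, map_sub, map_mul, conj_conj, map_one, mul_comm, h] at this
    simp at this
  have hc : CircleIntegrable (fun t => Real.log ‖1 - conj p * t‖) 0 ρ :=
    cint (ContinuousOn.log (by fun_prop) fun t ht => norm_ne_zero_iff.2 (hne t ht)) h0 h1
  have hl := circleIntegrable_log_norm_sub_const (c := 0) (a := p) ρ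
  have he : ∀ᵐ θ, -Real.log ‖mob (circleMap 0 ρ θ) p‖ =
      Real.log ‖1 - conj p * circleMap 0 ρ θ‖ - Real.log ‖circleMap 0 ρ θ - p‖ := by
    filter_upwards [((countable_singleton p).preimage_circleMap 0 h0.ne').ae_notMem volume]
      with θ hθ
    rw [mob, norm_div, Real.log_div (norm_ne_zero_iff.2 (sub_ne_zero.2 fun h => hθ h.symm))
      (den_pos (cm_mem h0 h1 θ) hp).ne', neg_sub, norm_sub_rev p, ← RCLike.norm_conj,
      map_sub, map_mul, conj_conj, map_one, mul_comm]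
  rw [lintegral_congr_ae (ae_restrict_of_ae (he.mono fun θ hθ => congrArg _ hθ)),
    lint_eq (f := fun t => Real.log ‖1 - conj p * t‖ - Real.log ‖t - p‖) (hc.sub hl)
      (he.mono fun θ hθ => hθ ▸ nlog_nonneg (norm_mob_le (cm_mem h0 h1 θ) hp)),
    circleAverage_fun_sub hc hl, AnalyticOnNhd.circleAverage_log_norm_of_ne_zero
      (g := fun t => 1 - conj p * t) (fun _ _ => by fun_prop) fun t ht => hne t (cb_sub h0 h1 ht)]
  refine ENNReal.ofReal_le_ofReal ?_
  rw [div_mul_eq_mul_div, mul_div_assoc]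
  refine mul_le_mul_of_nonneg_left ?_ two_pi_pos.le
  simp only [mul_zero, sub_zero, norm_one, Real.log_one, zero_sub]
  rw [le_div_iff₀ h0]
  rcases le_total ‖p‖ ρ with h | h
  · have h2 := mul_le_mul_of_nonneg_right
      ((one_sub_inv_le_log_of_pos h0).trans (avg_log_ge h0 p)) h0.le
    rw [sub_mul, inv_mul_cancel₀ h0.ne'] at h2
    linarith
  · have hp0 := h0.trans_le h
    have h2 : Real.log (ρ⁻¹ * ‖p‖) ≤ posLog (ρ⁻¹ * ‖p‖) := le_max_right _ _
    rw [Real.log_mul (inv_ne_zero h0.ne') hp0.ne', Real.log_inv] at h2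
    rw [circleAverage_log_norm_sub_const_eq_log_radius_add_posLog h0.ne', zero_sub, norm_neg]
    have h3 := mul_le_mul_of_nonneg_right (one_sub_inv_le_log_of_pos hp0) hp0.le
    rw [sub_mul, inv_mul_cancel₀ hp0.ne'] at h3
    nlinarith [nlog_nonneg hp]

theorem zeros_countable (hG : Sch G) (hn : NZ G) : {z | z ∈ disc ∧ G z = 0}.Countable := by
  obtain ⟨t, -, h1, h2⟩ := TopologicalSpace.countable_cover_nhdsWithin
    (s := {z | z ∈ disc ∧ G z = 0}) (f := fun z => {z}) fun z hz => by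
      filter_upwards [self_mem_nhdsWithin, mem_nhdsWithin_of_mem_nhds
        (eventually_nhdsWithin_iff.1 (ev_ne hG.1 hn hz.1))] with w h3 h4
      exact by_contra fun h5 => h4 h5 h3.2
  exact h1.mono (by simpa using h2)

theorem mx_of_fact (hG : Sch G) (hn : NZ G) (h : ∀ B S, Sch B → Sch S → (∀ z ∈ disc, S z ≠ 0) →
    (∀ z ∈ disc, G z = B z * S z) → -Real.log ‖S 0‖ ≤ 0) : Mx G := by
  obtain ⟨m, ι, a, P, S, ha, -, hS, hP, he⟩ := riesz hG hn
  have hid : Sch fun z : ℂ => z := sch_of_maps differentiableOn_id (mapsTo_id _)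
  have h1 := h _ S ((hid.pow m).mul hP) hS (fun z hz => (he z hz).2.2) fun z hz => (he z hz).2.1
  have h2 : 1 ≤ ‖S 0‖ :=
    (Real.log_nonneg_iff (norm_pos_iff.2 (he 0 zero_mem_disc).2.2)).1 (by linarith)
  refine mx_comp (C := fun z => z) (u := S 0) (m := m) (P := P)
    (le_antisymm (hS.2 0 zero_mem_disc) h2) ha (fun z hz => ⟨(he z hz).1, ?_⟩)
    differentiableOn_id (mapsTo_id _) hn fun b hb _ => mx_mob hb
  rw [(he z hz).2.1, hS.const_of_norm zero_mem_disc h2 z hz]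
  ring

theorem cont_nlog (hS : Sch S) (h0 : ∀ z ∈ disc, S z ≠ 0) :
    ContinuousOn (fun z => -Real.log ‖S z‖) disc :=
  (hS.1.continuousOn.norm.log fun z hz => norm_ne_zero_iff.2 (h0 z hz)).neg

theorem harm_nlog (hS : Sch S) (h0 : ∀ z ∈ disc, S z ≠ 0) (hr : 0 < r) (hr1 : r < 1) :
    InnerProductSpace.HarmonicOnNhd (fun z => -Real.log ‖S z‖) (closedBall 0 |r|) := fun z hz =>
  ((an hS.1 z (cb_sub hr hr1 hz)).harmonicAt_log_norm (h0 z (cb_sub hr hr1 hz))).neg

theorem nlog_le {x y : ℂ} (hx : ‖x‖ ≤ 1) (h0 : x * y ≠ 0) :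
    -Real.log ‖y‖ ≤ -Real.log ‖x * y‖ :=
  neg_le_neg (Real.log_le_log (norm_pos_iff.2 h0) (by
    rw [norm_mul]
    exact mul_le_of_le_one_left (norm_nonneg _) hx))

/-- The theorem of Frostman, on circles. -/
theorem frostman (hg : Sch g) (hw : WI g) (h0 : 0 < ρ) (h1 : ρ < 1) :
    ∀ᵐ θ ∂(volume.restrict (Ioc 0 (2 * π))), Mx fun z => mob (circleMap 0 ρ θ) (g z) := by
  choose r hr hr1 hle using fun n : ℕ => hw (1 / (n + 1)) Nat.one_div_pos_of_nat
  have hc : ContinuousOn (fun z => 1 - ‖g z‖) disc := continuousOn_const.sub hg.1.continuousOn.norm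
  let F : ℕ → ℝ × ℝ → ENNReal := fun n x =>
    ENNReal.ofReal (-Real.log ‖mob (circleMap 0 ρ x.1) (g (circleMap 0 (r n) x.2))‖)
  have hF : ∀ n, Measurable (F n) := fun n => by
    have h2 : Continuous fun φ => g (circleMap 0 (r n) φ) :=
      hg.1.continuousOn.comp_continuous (continuous_circleMap 0 _) (cm_mem (hr n) (hr1 n))
    refine ENNReal.measurable_ofReal.comp (Measurable.neg (Measurable.log (Measurable.norm ?_)))
    have h3 : Continuous fun x : ℝ × ℝ => g (circleMap 0 (r n) x.2) := h2.comp continuous_snd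
    have h4 : Continuous fun x : ℝ × ℝ => circleMap 0 ρ x.1 :=
      (continuous_circleMap 0 ρ).comp continuous_fst
    exact Measurable.div (h3.sub h4).measurable
      (continuous_const.sub ((continuous_conj.comp h4).mul h3)).measurable
  let J : ℕ → ℝ → ENNReal := fun n θ => ∫⁻ φ in Ioc 0 (2 * π), F n (θ, φ)
  have hJ : ∀ n, Measurable (J n) := fun n => (hF n).lintegral_prod_right'
  have h2 : ∀ n, ∫⁻ θ in Ioc 0 (2 * π), J n θ ≤
      ENNReal.ofReal (2 * π * (2 * π / ρ * (1 / (n + 1)))) := fun n => by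
    rw [lintegral_lintegral_swap (f := fun θ φ => F n (θ, φ)) (hF n).aemeasurable]
    refine (lintegral_mono fun φ => lint_mob h0 h1 (hg.2 _ (cm_mem (hr n) (hr1 n) φ))).trans ?_
    rw [lint_eq (f := fun z => 2 * π / ρ * (1 - ‖g z‖))
      (cint (continuousOn_const.mul hc) (hr n) (hr1 n)) (Eventually.of_forall fun φ =>
        mul_nonneg (by positivity) (sub_nonneg.2 (hg.2 _ (cm_mem (hr n) (hr1 n) φ))))]
    refine ENNReal.ofReal_le_ofReal (mul_le_mul_of_nonneg_left ?_ two_pi_pos.le)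
    exact (circleAverage_fun_smul (a := 2 * π / ρ) (f := fun z => 1 - ‖g z‖)).le.trans
      (mul_le_mul_of_nonneg_left (hle n) (by positivity))
  have h3 : ∫⁻ θ in Ioc 0 (2 * π), ⨅ n, J n θ = 0 := by
    have h4 := ENNReal.tendsto_ofReal (((tendsto_one_div_add_atTop_nhds_zero_nat (𝕜 := ℝ)).const_mul
      (2 * π / ρ)).const_mul (2 * π))
    simp only [mul_zero, ENNReal.ofReal_zero] at h4
    exact le_antisymm (ge_of_tendsto' h4 fun n =>
      (lintegral_mono fun θ => iInf_le _ n).trans (h2 n)) zero_le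
  filter_upwards [(lintegral_eq_zero_iff (Measurable.iInf hJ)).1 h3] with θ hθ
  have ht := cm_mem h0 h1 θ
  have hn : NZ fun z => mob (circleMap 0 ρ θ) (g z) := by
    by_contra h
    obtain ⟨s, hs, hs1, h4⟩ := hw ((1 - ρ) / 2) (by linarith)
    rw [circleAverage_const_on_circle (a := 1 - ρ) fun z hz => ?_] at h4
    · linarith
    · have h5 := le_mob ht (hg.2 z (sph_sub hs hs1 hz))
      have h6 : mob (circleMap 0 ρ θ) (g z) = 0 :=
        not_ne_iff.1 fun h6 => h ⟨z, sph_sub hs hs1 hz, h6⟩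
      rw [h6, norm_zero, mul_zero, norm_le_zero_iff, sub_eq_zero] at h5
      rw [h5, norm_circleMap_zero, abs_of_pos h0]
  refine mx_of_fact (hg.mob ht) hn fun B S hB hS hS0 he => ?_
  have h4 : ENNReal.ofReal (2 * π * -Real.log ‖S 0‖) ≤ ⨅ n, J n θ := le_iInf fun n => by
    have h5 := (harm_nlog hS hS0 (hr n) (hr1 n)).circleAverage_eq
    rw [← h5, ← lint_eq (cint (cont_nlog hS hS0) (hr n) (hr1 n))
      (Eventually.of_forall fun φ => nlog_nonneg (hS.2 _ (cm_mem (hr n) (hr1 n) φ)))]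
    refine lintegral_mono_ae (ae_restrict_of_ae ?_)
    filter_upwards [((zeros_countable (hg.mob ht) hn).preimage_circleMap 0 (hr n).ne').ae_notMem
      volume] with φ hφ
    have hz := cm_mem (hr n) (hr1 n) φ
    refine ENNReal.ofReal_le_ofReal ?_
    rw [he _ hz]
    exact nlog_le (hB.2 _ hz) fun h => hφ ⟨hz, (he _ hz).trans h⟩
  rw [hθ, Pi.zero_apply, nonpos_iff_eq_zero, ENNReal.ofReal_eq_zero] at h4
  exact nonpos_of_mul_nonpos_right h4 two_pi_pos

theorem pick {f : ℂ → ℝ} (hf : CircleIntegrable f 0 ρ) {Q : ℝ → Prop}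
    (hQ : ∀ᵐ θ ∂(volume.restrict (Ioc 0 (2 * π))), Q θ) :
    ∃ θ, Q θ ∧ f (circleMap 0 ρ θ) ≤ circleAverage f 0 ρ := by
  obtain ⟨θ, h1, h2⟩ := exists_notMem_null_le_average (μ := volume.restrict (Ioc 0 (2 * π)))
    (by simp [pi_pos]) hf.1 hQ
  refine ⟨θ, not_not.1 h1, ?_⟩
  rwa [circleAverage_eq_intervalAverage, uIoc_of_le two_pi_pos.le]

/-- The Poisson estimate. -/
theorem est (hS : Sch S) (h0 : ∀ z ∈ disc, S z ≠ 0) (hr : 0 < r) (hr1 : r < 1) {κ : Type}
    (K : Finset κ) {c : κ → ℝ} {w : κ → ℂ} (hc : ∀ k ∈ K, 0 ≤ c k) (hw : ∀ k ∈ K, ‖w k‖ < r)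
    {x : ℝ} (hx : 0 ≤ x) (hz : ∀ z, ‖z‖ = r → -Real.log ‖S z‖ ≤ x ∨
      ∃ k ∈ K, 1 ≤ c k * poissonKernel 0 (w k) z) :
    -Real.log ‖S 0‖ ≤ x + ∑ k ∈ K, c k * -Real.log ‖S (w k)‖ := by
  have hh := harm_nlog hS h0 hr hr1
  have hi : ∀ k ∈ K, CircleIntegrable
      (fun z => c k • (poissonKernel 0 (w k) • fun z => -Real.log ‖S z‖) z) 0 r := by
    intro k hk
    refine ContinuousOn.circleIntegrable' (ContinuousOn.const_smul (ContinuousOn.smul
      (f := poissonKernel 0 (w k)) ?_ ((cont_nlog hS h0).mono (sph_sub hr hr1))) (c k))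
    refine ContinuousOn.div (by fun_prop) (by fun_prop) fun z hz => pow_ne_zero 2 ?_
    rw [sub_zero, sub_zero, norm_ne_zero_iff, sub_ne_zero]
    rintro rfl
    rw [mem_sphere_zero_iff_norm, abs_of_pos hr] at hz
    exact (hw k hk).ne hz
  have hs : CircleIntegrable (fun z => ∑ k ∈ K,
      c k • (poissonKernel 0 (w k) • fun z => -Real.log ‖S z‖) z) 0 r := by
    have := CircleIntegrable.sum K hi
    rwa [Finset.sum_fn] at this
  rw [← hh.circleAverage_eq]
  refine (circleAverage_mono (cint (cont_nlog hS h0) hr hr1)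
    ((circleIntegrable_const x 0 r).add hs) fun z hz' => ?_).trans (le_of_eq ?_)
  · have h1 := nlog_nonneg (hS.2 z (sph_sub hr hr1 hz'))
    rw [mem_sphere_zero_iff_norm, abs_of_pos hr] at hz'
    have h2 : ∀ k ∈ K, 0 ≤ c k • (poissonKernel 0 (w k) • fun z => -Real.log ‖S z‖) z := by
      intro k hk
      refine mul_nonneg (hc k hk) (mul_nonneg (div_nonneg ?_ (sq_nonneg _)) h1)
      rw [sub_zero, sub_zero, hz']
      nlinarith [hw k hk, norm_nonneg (w k)]
    rw [Pi.add_apply]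
    rcases hz z hz' with h | ⟨k, hk, h⟩
    · linarith [Finset.sum_nonneg h2]
    · have h3 := Finset.single_le_sum h2 hk
      have h4 := mul_le_mul_of_nonneg_right h h1
      rw [one_mul, mul_assoc] at h4
      exact h4.trans (h3.trans (le_add_of_nonneg_left hx))
  · rw [circleAverage_add (circleIntegrable_const x 0 r) hs, circleAverage_const,
      circleAverage_fun_sum hi]
    refine congrArg _ (Finset.sum_congr rfl fun k hk => ?_)
    rw [abs_of_pos hr] at hh
    rw [circleAverage_fun_smul,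
      hh.circleAverage_poissonKernel_smul (mem_ball_zero_iff.2 (hw k hk)), smul_eq_mul]

end Pool.Agent.P.MP_4d1c53_an
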