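import Pool.Agent.P.MP_4d1c53_an.D

/-! The selection of a sparse family of heavy discs. -/

open Complex ComplexConjugate Filter Topology Metric Set MeasureTheory

noncomputable section

namespace Pool.Agent.P.MP_4d1c53_an

theorem bilip {x y : ℂ} (hx : ‖x‖ = 1) (hy : ‖y‖ = 1) (hx1 : ‖x - 1‖ ≤ 1 / 2)
    (hy1 : ‖y - 1‖ ≤ 1 / 2) : ‖x - y‖ ≤ 2 * |x.im - y.im| := by
  have h1 := abs_le.1 ((abs_re_le_norm _).trans hx1)
  have h2 := abs_le.1 ((abs_re_le_norm _).trans hy1)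
  have h3 := abs_le.1 ((abs_im_le_norm _).trans hx1)
  have h4 := abs_le.1 ((abs_im_le_norm _).trans hy1)
  have h5 : ‖x‖ ^ 2 = 1 := by rw [hx, one_pow]
  have h6 : ‖y‖ ^ 2 = 1 := by rw [hy, one_pow]
  refine (pow_le_pow_iff_left₀ (norm_nonneg _) (by positivity) two_ne_zero).1 ?_
  rw [mul_pow, sq_abs]
  simp only [Complex.sq_norm, normSq_apply, sub_re, sub_im, one_re, one_im, sub_zero] at *
  have h7 : (x.re - y.re) * (x.re + y.re) = -((x.im - y.im) * (x.im + y.im)) := by linarith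
  have h8 : (x.re - y.re) ^ 2 * 1 ≤ (x.re - y.re) ^ 2 * (x.re + y.re) ^ 2 :=
    mul_le_mul_of_nonneg_left (by nlinarith) (sq_nonneg _)
  have h9 : (x.im - y.im) ^ 2 * (x.im + y.im) ^ 2 ≤ (x.im - y.im) ^ 2 * 1 :=
    mul_le_mul_of_nonneg_left (by nlinarith) (sq_nonneg _)
  rw [← mul_pow, h7, neg_sq, mul_pow] at h8
  nlinarith [sq_nonneg (x.im - y.im)]

theorem pack {κ : Type} (K : Finset κ) {ζ : κ → ℂ} {ρ : κ → ℝ} {ξ : ℂ} (hξ : ‖ξ‖ = 1) {δ : ℝ}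
    (hδ0 : 0 ≤ δ) (hδ : δ ≤ 1 / 2) (h : ∀ j ∈ K, ‖ζ j‖ = 1 ∧ 0 ≤ ρ j ∧ ρ j ≤ δ ∧ ‖ζ j - ξ‖ ≤ δ)
    (hd : ∀ i ∈ K, ∀ j ∈ K, i ≠ j → ρ i + ρ j < ‖ζ i - ζ j‖) : ∑ j ∈ K, ρ j ≤ 3 * δ := by
  have h0 : ξ * conj ξ = 1 := by rw [mul_conj', hξ]; simp
  have hn : ∀ z, ‖z * conj ξ‖ = ‖z‖ := fun z => by rw [norm_mul, RCLike.norm_conj, hξ, mul_one]
  have h1 : ∀ j ∈ K, ‖ζ j * conj ξ - 1‖ ≤ δ := fun j hj => by
    rw [← h0, ← sub_mul, hn]
    exact (h j hj).2.2.2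
  have h2 := measure_biUnion_finset (μ := volume) (s := K)
    (f := fun j => closedBall (ζ j * conj ξ).im (ρ j / 2)) (fun i hi j hj hij => by
      refine closedBall_disjoint_closedBall ?_
      have h3 := bilip ((hn _).trans (h i hi).1) ((hn _).trans (h j hj).1) ((h1 i hi).trans hδ)
        ((h1 j hj).trans hδ)
      rw [← sub_mul, hn] at h3
      rw [Real.dist_eq]
      linarith [hd i hi j hj hij]) fun _ _ => measurableSet_closedBall
  have h3 : (⋃ j ∈ K, closedBall (ζ j * conj ξ).im (ρ j / 2)) ⊆ closedBall (0 : ℝ) (3 * δ / 2) := by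
    refine iUnion₂_subset fun j hj => closedBall_subset_closedBall' ?_
    have h4 := (abs_im_le_norm _).trans (h1 j hj)
    rw [sub_im, one_im] at h4
    rw [Real.dist_eq]
    linarith [(h j hj).2.2.1]
  have h4 := measure_mono (μ := volume) h3
  simp only [h2, Real.volume_closedBall] at h4
  rw [← ENNReal.ofReal_sum_of_nonneg fun j hj => by linarith [(h j hj).2.1],
    ENNReal.ofReal_le_ofReal_iff (by linarith)] at h4
  simp only [mul_div_cancel₀ _ (two_ne_zero (α := ℝ))] at h4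
  exact h4

theorem geo {ι : Type} {a : ι → ℂ} (ha : ∀ i, a i ∈ disc ∧ a i ≠ 0) {L A s₀ t : ℝ} (hL : 0 < L)
    (hL1 : L ≤ 1) (hA : 13824 ≤ L * A) (ht : 0 < t) (ht1 : t ≤ 1) (hs₀ : A * s₀ ≤ 1 / 2)
    (hm : ∀ F : Finset ι, ∑ i ∈ F, (1 - ‖a i‖) ≤ L * s₀) :
    ∃ (κ : Type) (K : Finset κ) (ζ : κ → ℂ) (s : κ → ℝ) (U : Finset ι),
      (∀ k ∈ K, ‖ζ k‖ = 1 ∧ t ≤ s k ∧ s k ≤ s₀ ∧
        L / 9 ≤ 1 - ‖∏ i ∈ U, factor (a i) (((1 - 2 * s k : ℝ) : ℂ) * ζ k)‖ ^ 2 ∧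
        1 - ‖∏ i ∈ U, factor (a i) (((1 - A * s k : ℝ) : ℂ) * ζ k)‖ ^ 2 ≤ L / 18) ∧
      ∑ k ∈ K, s k ≤ s₀ ∧ ∀ ξ : ℂ, ‖ξ‖ = 1 →
        (∀ F : Finset ι, ∑ i ∈ F, (1 - ‖factor (a i) (((1 - t : ℝ) : ℂ) * ξ)‖ ^ 2) ≤ 64 * L) ∨
          ∃ k ∈ K, ‖ξ - ζ k‖ ≤ 5 * (A * s k) := by
  classical
  have hA0 : 0 < A := by
    by_contra h
    nlinarith
  have hA1 : 13824 ≤ A := by nlinarith
  have hμ : ∀ i, 0 ≤ 1 - ‖a i‖ := fun i => sub_nonneg.2 (mem_disc.1 (ha i).1).le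
  have hd2 : ∀ ξ : ℂ, ‖ξ‖ = 1 → ∀ i, ‖ξ - a i‖ ≤ 2 := fun ξ hξ i => by
    linarith [norm_sub_le ξ (a i), hμ i]
  have hq : ∀ ξ : ℂ, ‖ξ‖ = 1 → ∀ (F : Finset ι) (r M : ℝ), 0 < r → r ≤ 1 → 0 ≤ M →
      (∀ s, r ≤ s → ∑ i ∈ F with ‖ξ - a i‖ ≤ s, (1 - ‖a i‖) ≤ M * s) →
      ∑ i ∈ F, (1 - ‖factor (a i) (((1 - r : ℝ) : ℂ) * ξ)‖ ^ 2) ≤ 64 * M := by
    intro ξ hξ F r M hr hr1 hM h
    refine (Finset.sum_le_sum fun i _ => q_upper (ha i).1 (ha i).2 hξ hr hr1).trans ?_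
    rw [← Finset.mul_sum]
    refine (mul_le_mul_of_nonneg_left (pot F hμ (hd2 ξ hξ) hM hr h) (by positivity)).trans
      (le_of_eq ?_)
    field_simp
    ring
  have hf : ∀ ξ : ℂ, ‖ξ‖ = 1 → ∀ r : ℝ, 0 < r → r ≤ 1 → ∀ i,
      ‖factor (a i) (((1 - r : ℝ) : ℂ) * ξ)‖ ≤ 1 := fun ξ hξ r hr hr1 i =>
    (factor_sch (ha i).1 (ha i).2).2 _ (mem_disc.2 (by rw [norm_rad hξ hr1]; linarith))
  let T : Set (ℂ × ℝ × Finset ι) := {k | ‖k.1‖ = 1 ∧ t ≤ k.2.1 ∧ (∀ i ∈ k.2.2, ‖k.1 - a i‖ ≤ k.2.1) ∧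
    L * k.2.1 ≤ ∑ i ∈ k.2.2, (1 - ‖a i‖) ∧ ∑ i ∈ k.2.2, (1 - ‖a i‖) ≤ 2 * k.2.1}
  have hT : ∀ k ∈ T, k.2.1 ≤ s₀ := fun k hk => le_of_mul_le_mul_left (hk.2.2.2.1.trans (hm _)) hL
  have hT0 : ∀ k ∈ T, 0 < k.2.1 := fun k hk => ht.trans_le hk.2.1
  obtain ⟨V, hV, hdis, hcov⟩ := Vitali.exists_disjoint_subfamily_covering_enlargement_closedBall T
    (fun k => k.1) (fun k => A * k.2.1) (A * s₀)
    (fun k hk => mul_le_mul_of_nonneg_left (hT k hk) hA0.le) 5 (by norm_num)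
  have hsep : ∀ k ∈ V, ∀ l ∈ V, k ≠ l → A * k.2.1 + A * l.2.1 < ‖k.1 - l.1‖ := by
    intro k hk l hl hne
    rw [← dist_eq_norm]
    exact (disjoint_closedBall_closedBall_iff (mul_pos hA0 (hT0 k (hV hk))).le
      (mul_pos hA0 (hT0 l (hV hl))).le).1 (hdis hk hl hne)
  have hbi : ∀ K : Finset (ℂ × ℝ × Finset ι), (K : Set _) ⊆ V →
      ∑ i ∈ K.biUnion fun k => k.2.2, (1 - ‖a i‖) = ∑ k ∈ K, ∑ i ∈ k.2.2, (1 - ‖a i‖) := by
    intro K hK
    refine Finset.sum_biUnion fun k hk l hl hne => Finset.disjoint_left.2 fun i h1 h2 => ?_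
    have h3 := norm_sub_le_norm_sub_add_norm_sub k.1 (a i) l.1
    rw [norm_sub_rev (a i)] at h3
    nlinarith [hsep k (hK hk) l (hK hl) hne, (hV (hK hk)).2.2.1 i h1, (hV (hK hl)).2.2.1 i h2,
      hT0 k (hV (hK hk)), hT0 l (hV (hK hl))]
  have hsum : ∀ K : Finset (ℂ × ℝ × Finset ι), (K : Set _) ⊆ V → ∑ k ∈ K, k.2.1 ≤ s₀ := by
    intro K hK
    refine le_of_mul_le_mul_left (le_trans ?_ (hm (K.biUnion fun k => k.2.2))) hL
    rw [hbi K hK, Finset.mul_sum]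
    exact Finset.sum_le_sum fun k hk => (hV (hK hk)).2.2.2.1
  have hfin : V.Finite := by
    by_contra h
    obtain ⟨n, hn⟩ := exists_nat_gt (s₀ / t)
    obtain ⟨K, hK, hc⟩ := Set.Infinite.exists_subset_card_eq h n
    have h1 := Finset.card_nsmul_le_sum K (fun k => k.2.1) t fun k hk => (hV (hK hk)).2.1
    rw [hc, nsmul_eq_mul] at h1
    linarith [hsum K hK, (div_lt_iff₀ ht).1 hn]
  refine ⟨_, hfin.toFinset, fun k => k.1, fun k => k.2.1, hfin.toFinset.biUnion fun k => k.2.2,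
    fun k hk => ?_, hsum _ (by simp), fun ξ hξ => ?_⟩
  · have hkV := hfin.mem_toFinset.1 hk
    have hkT := hV hkV
    have h0 := hT0 k hkT
    have h1 : A * k.2.1 ≤ 1 / 2 := (mul_le_mul_of_nonneg_left (hT k hkT) hA0.le).trans hs₀
    have h2 : 2 * k.2.1 ≤ 1 := by nlinarith
    refine ⟨hkT.1, hkT.2.1, hT k hkT, ?_, ?_⟩
    · have h3 := hf _ hkT.1 (2 * k.2.1) (by linarith) h2
      have h4 := q_prod' k.2.2 h3
      have h5 := Finset.sum_le_sum fun i hi =>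
        q_lower (ha i).1 (ha i).2 hkT.1 h0 h2 (hkT.2.2.1 i hi)
      rw [← Finset.mul_sum] at h5
      have h6 := mul_le_mul_of_nonneg_left hkT.2.2.2.1 (by positivity : 0 ≤ 2 / (9 * k.2.1))
      have h7 : 2 / (9 * k.2.1) * (L * k.2.1) = 2 * L / 9 := by field_simp
      rw [← Finset.prod_sdiff (Finset.subset_biUnion_of_mem (fun k => k.2.2) hk), norm_mul, mul_pow]
      have h8 := sq_le_one' (norm_prod_le' ((hfin.toFinset.biUnion fun k => k.2.2) \ k.2.2) h3)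
      have h9 := sq_nonneg ‖∏ i ∈ k.2.2, factor (a i) (((1 - 2 * k.2.1 : ℝ) : ℂ) * k.1)‖
      generalize ‖∏ i ∈ k.2.2, factor (a i) (((1 - 2 * k.2.1 : ℝ) : ℂ) * k.1)‖ ^ 2 = y at *
      have h10 : y * (1 + 2 * L / 9) ≤ 1 :=
        (mul_le_mul_of_nonneg_left (by linarith) h9).trans h4
      have h11 : y ≤ 1 - L / 9 := by
        by_contra h12
        nlinarith
      nlinarith
    · refine (q_prod _ (hf _ hkT.1 _ (mul_pos hA0 h0) (by linarith))).trans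
        ((hq _ hkT.1 _ _ (L / 1152) (mul_pos hA0 h0) (by linarith) (by positivity)
          fun s hs => ?_).trans (le_of_eq (by ring)))
      have hs0 : 0 < s := (mul_pos hA0 h0).trans_le hs
      rcases le_total s (1 / 3) with h3 | h3
      · let K := hfin.toFinset.filter fun j => ∃ i ∈ j.2.2, ‖k.1 - a i‖ ≤ s
        have hK : (K : Set _) ⊆ V := fun j hj => hfin.mem_toFinset.1 (Finset.mem_filter.1 hj).1
        have h4 := pack K (ζ := fun j => j.1) (ρ := fun j => A * j.2.1) hkT.1 (δ := 3 * s / 2)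
          (by linarith) (by linarith) (fun j hj => ?_) fun i hi j hj => hsep i (hK hi) j (hK hj)
        · refine (Finset.sum_le_sum_of_subset_of_nonneg (t := K.biUnion fun k => k.2.2)
            (fun i hi => ?_) fun i _ _ => hμ i).trans ?_
          · obtain ⟨h5, h6⟩ := Finset.mem_filter.1 hi
            obtain ⟨j, hj, h7⟩ := Finset.mem_biUnion.1 h5
            exact Finset.mem_biUnion.2 ⟨j, Finset.mem_filter.2 ⟨hj, i, h7, h6⟩, h7⟩
          · rw [hbi K hK]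
            refine (Finset.sum_le_sum fun j hj => (hV (hK hj)).2.2.2.2).trans ?_
            rw [← Finset.mul_sum] at h4 ⊢
            refine le_of_mul_le_mul_left ?_ hA0
            nlinarith
        · have hjT := hV (hK hj)
          have h5 := hT0 j hjT
          refine ⟨hjT.1, (mul_pos hA0 h5).le, ?_⟩
          by_cases hjk : j = k
          · subst hjk
            exact ⟨by linarith, by rw [sub_self, norm_zero]; linarith⟩
          · obtain ⟨i, h6, h7⟩ := (Finset.mem_filter.1 hj).2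
            have h8 := norm_sub_le_norm_sub_add_norm_sub j.1 (a i) k.1
            rw [norm_sub_rev (a i)] at h8
            have h9 := hsep j (hK hj) k hkV hjk
            have h10 := hjT.2.2.1 i h6
            have h11 : 2 * j.2.1 ≤ s := by nlinarith [mul_pos hA0 h0]
            exact ⟨by linarith [mul_pos hA0 h0], by linarith⟩
      · refine (hm _).trans ?_
        have h4 : s₀ ≤ s / 1152 := by
          refine le_of_mul_le_mul_left (hs₀.trans ?_) hA0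
          nlinarith
        nlinarith
  · by_cases h : ∃ k ∈ T, k.1 = ξ
    · obtain ⟨k, hk, rfl⟩ := h
      obtain ⟨l, hl, h1⟩ := hcov k hk
      exact Or.inr ⟨l, hfin.mem_toFinset.2 hl, mem_closedBall_iff_norm.1
        (h1 (mem_closedBall_self (mul_pos hA0 (hT0 k hk)).le))⟩
    · refine Or.inl fun F => hq ξ hξ F t L ht ht1 hL.le fun s hs => by_contra fun h1 => h ?_
      have hs0 := ht.trans_le hs
      obtain ⟨G, hG, h2, h3⟩ := select _ (s := s) (mul_pos hL hs0).le hs0.le (fun i hi => by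
        linarith [norm_sub_norm_le ξ (a i), (Finset.mem_filter.1 hi).2]) (not_le.1 h1).le
      exact ⟨(ξ, s, G), ⟨hξ, hs, fun i hi => (Finset.mem_filter.1 (hG hi)).2, h2,
        h3.trans (by nlinarith)⟩, rfl⟩

end Pool.Agent.P.MP_4d1c53_an
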