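import Pool.Agent.P.MP_4d1c53_an.E
import Pool.Agent.P.MP_4d1c53_an.F

/-! The perturbation step and the density of the indestructible Blaschke products. -/

open Complex ComplexConjugate Filter Topology Metric Set MeasureTheory Real

noncomputable section

namespace Pool.Agent.P.MP_4d1c53_an

variable {u : ℂ → ℂ} {ρ c κ : ℝ}

theorem quad {b b' p p' : ℂ} (hb : b ≠ b') (hp : ‖p‖ ≤ 1) (hp' : ‖p'‖ ≤ 1) (h1 : ρ < 1) :
    ∃ x y : ℂ, ∀ ε : ℂ, ‖ε‖ = ρ →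
      ‖b - b'‖ * (‖ε - x‖ * ‖ε - y‖) ≤ 4 * ρ * ‖b * mob ε p - b' * mob ε p'‖ := by
  have hγ : b' - b ≠ 0 := sub_ne_zero.2 hb.symm
  obtain ⟨β, hβ⟩ : ∃ β, β = b * p + b * ρ ^ 2 * p' - b' * p' - b' * ρ ^ 2 * p := ⟨_, rfl⟩
  obtain ⟨s, hs⟩ := IsAlgClosed.exists_eq_mul_self
    (β ^ 2 - 4 * (b' - b) * ((b' - b) * ρ ^ 2 * p * p'))
  refine ⟨(-β + s) / (2 * (b' - b)), (-β - s) / (2 * (b' - b)), fun ε hε => ?_⟩
  have hd : ε ∈ disc := mem_disc.2 (hε ▸ h1)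
  have h2 : conj ε * ε = ρ ^ 2 := by rw [conj_mul', hε]
  have h3 := div_mul_cancel₀ (p - ε) (norm_pos_iff.1 (den_pos hd hp))
  have h4 := div_mul_cancel₀ (p' - ε) (norm_pos_iff.1 (den_pos hd hp'))
  have h5 : (b' - b) * ((ε - (-β + s) / (2 * (b' - b))) * (ε - (-β - s) / (2 * (b' - b)))) =
      (b' - b) * ε ^ 2 + β * ε + (b' - b) * ρ ^ 2 * p * p' := by
    field_simp
    linear_combination hs
  have h6 : (b' - b) * ε ^ 2 + β * ε + (b' - b) * ρ ^ 2 * p * p' =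
      (1 - conj ε * p) * (1 - conj ε * p') * ε * (b * mob ε p - b' * mob ε p') := by
    rw [mob, mob, hβ, ← h2]
    linear_combination (-b * (1 - conj ε * p') * ε) * h3 + (b' * (1 - conj ε * p) * ε) * h4
  rw [norm_sub_rev, ← norm_mul, ← norm_mul, h5, h6, norm_mul, norm_mul, norm_mul, hε]
  refine mul_le_mul_of_nonneg_right (mul_le_mul_of_nonneg_right ?_ (hε ▸ norm_nonneg ε))
    (norm_nonneg _)
  nlinarith [den_le (mem_disc.1 hd).le hp, den_le (mem_disc.1 hd).le hp',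
    norm_nonneg (1 - conj ε * p), norm_nonneg (1 - conj ε * p')]

theorem poisson_ge {ξ ζ : ℂ} (hξ : ‖ξ‖ = 1) (hζ : ‖ζ‖ = 1) {A s t τ : ℝ} (ht : 0 < t)
    (hs : t ≤ s) (h1 : 2 * s ≤ τ) (h2 : τ ≤ A * s) (h3 : A * s ≤ 1 / 2)
    (h4 : ‖ξ - ζ‖ ≤ 5 * (A * s)) :
    1 ≤ 49 * A ^ 2 * s * poissonKernel 0 (((1 - τ : ℝ) : ℂ) * ζ) (((1 - t : ℝ) : ℂ) * ξ) := by
  have h5 := norm_rad hξ (t := t) (by linarith)
  have h6 := norm_rad hζ (t := τ) (by linarith)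
  have h7 := norm_sub_norm_le (((1 - t : ℝ) : ℂ) * ξ) (((1 - τ : ℝ) : ℂ) * ζ)
  have h8 : ‖((1 - t : ℝ) : ℂ) * ξ - ((1 - τ : ℝ) : ℂ) * ζ‖ ≤ 7 * (A * s) := by
    have h9 : ((1 - t : ℝ) : ℂ) * ξ - ((1 - τ : ℝ) : ℂ) * ζ = ξ - ζ - t * ξ + τ * ζ := by
      push_cast
      ring
    have h10 := norm_add_le (ξ - ζ - t * ξ) (τ * ζ)
    have h11 := norm_sub_le (ξ - ζ) (t * ξ)
    rw [norm_mul, norm_real, Real.norm_of_nonneg (by linarith)] at h10 h11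
    rw [hζ] at h10
    rw [hξ] at h11
    rw [h9]
    linarith
  rw [h5, h6] at h7
  rw [poissonKernel_def, sub_zero, sub_zero, h5, h6, ← mul_div_assoc,
    one_le_div (pow_pos (by linarith) 2)]
  refine (pow_le_pow_left₀ (norm_nonneg _) h8 2).trans ?_
  have h9 : s ≤ (1 - t) ^ 2 - (1 - τ) ^ 2 := by nlinarith
  have h10 : 0 ≤ 49 * A ^ 2 * s := mul_nonneg (by positivity) (by linarith)
  nlinarith [mul_le_mul_of_nonneg_left h9 h10]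

theorem nlog_le_q {y : ℂ} {x : ℝ} (h : 1 - ‖y‖ ^ 2 ≤ x) (hx : x ≤ 1 / 2) (hy : ‖y‖ ≤ 1) :
    y ≠ 0 ∧ -Real.log ‖y‖ ≤ x := by
  have h0 : 0 < ‖y‖ ^ 2 := by linarith
  refine ⟨fun h1 => by simp [h1] at h0, ?_⟩
  have h1 := mul_le_mul_of_nonneg_right (one_sub_inv_le_log_of_pos h0) h0.le
  rw [sub_mul, inv_mul_cancel₀ h0.ne', Real.log_pow] at h1
  push_cast at h1
  nlinarith [nlog_nonneg hy]

theorem gap {x y : ℂ} {L : ℝ} (hx : ‖x‖ ≤ 1) (hy : ‖y‖ ≤ 1) (h1 : L / 9 ≤ 1 - ‖x‖ ^ 2)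
    (h2 : 1 - ‖y‖ ^ 2 ≤ L / 18) : L / 36 ≤ ‖x - y‖ := by
  have h3 := norm_sub_norm_le y x
  rw [norm_sub_rev] at h3
  nlinarith [mul_le_mul_of_nonneg_right h3 (add_nonneg (norm_nonneg x) (norm_nonneg y)),
    mul_le_mul_of_nonneg_left (add_le_add hx hy) (norm_nonneg (x - y))]

theorem offc {b g f ε a : ℂ} {L : ℝ} (hb : ‖b‖ ≤ 1) (hg : ‖g‖ ≤ 1) (hf : ‖f‖ ≤ 1)
    (hε : ‖ε‖ ≤ 1 / 2) (ha : ‖a‖ ≤ c) (hc1 : c < 1) (hL : 0 < L) (hLκ : 1308 * L ≤ κ * (1 - c))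
    (h : 1 - ‖b * g‖ ^ 2 ≤ 65 * L) (hd : ‖f - b * mob ε g‖ ≤ L) : 1 - ‖mob a f‖ ^ 2 ≤ κ / 2 := by
  have hεd : ε ∈ disc := mem_disc.2 (by linarith)
  have had : a ∈ disc := mem_disc.2 (by linarith)
  rw [norm_mul, mul_pow] at h
  have h4 := mul_nonneg (sq_nonneg ‖g‖) (sq_le_one' hb)
  have h5 := mul_nonneg (sq_nonneg ‖b‖) (sq_le_one' hg)
  have h8 := q_le hεd hg
  have h9 := mul_nonneg (sq_le_one' (norm_mob_le hεd hg)) (sub_nonneg.2 hε)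
  have h10 := q_mul hb (norm_mob_le hεd hg)
  have hv : ‖b * mob ε g‖ ≤ 1 := by
    rw [norm_mul]
    exact mul_le_one₀ hb (norm_nonneg _) (norm_mob_le hεd hg)
  have h12 := norm_sub_norm_le (b * mob ε g) f
  rw [norm_sub_rev] at h12
  have h13 := mul_le_mul_of_nonneg_right (h12.trans hd)
    (add_nonneg (norm_nonneg (b * mob ε g)) (norm_nonneg f))
  have h11 := mul_le_mul_of_nonneg_left (add_le_add hv hf) hL.le
  have h14 := q_le had hf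
  have h15 := mul_nonneg (sq_le_one' (norm_mob_le had hf)) (sub_nonneg.2 ha)
  exact le_of_mul_le_mul_right (by linarith) (sub_pos.2 hc1)

/-- All zero-free factors of the shifts of `f` by points of norm at most `c` are close to one in
modulus at the origin. -/
def Good (c κ : ℝ) (f : ℂ → ℂ) : Prop :=
  ∀ a : ℂ, ‖a‖ ≤ c → ∀ B S, Sch B → Sch S → (∀ z ∈ disc, S z ≠ 0) →
    (∀ z ∈ disc, mob a (f z) = B z * S z) → -Real.log ‖S 0‖ ≤ κ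

/-- The perturbation step. -/
theorem core (hu : Sch u) (hx : Mx u) (hρ : 0 < ρ) (hρ1 : ρ ≤ 1 / 2) (hc : 0 ≤ c) (hc1 : c < 1)
    (hκ : 0 < κ) (hκ1 : κ ≤ 1) :
    ∃ (v : ℂ → ℂ) (δ : ℝ), Sch v ∧ Mx v ∧ (∀ z ∈ disc, ‖v z - u z‖ ≤ 4 * ρ) ∧ 0 < δ ∧
      ∀ f, Sch f → (∀ z ∈ disc, ‖f z - v z‖ ≤ δ) → Good c κ f := by
  classical
  obtain ⟨L, hL, hL1, hLκ⟩ : ∃ L : ℝ, 0 < L ∧ L ≤ 1 ∧ 1308 * L ≤ κ * (1 - c) :=
    ⟨κ * (1 - c) / 1308, div_pos (mul_pos hκ (by linarith)) (by norm_num), by nlinarith,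
      by linarith⟩
  obtain ⟨A, hA0, hA⟩ : ∃ A : ℝ, 0 < A ∧ 13824 ≤ L * A :=
    ⟨13824 / L, by positivity, by rw [mul_div_cancel₀ _ hL.ne']⟩
  have hA2 : 2 ≤ A := by nlinarith
  obtain ⟨Λ, hΛ0, hΛ⟩ : ∃ Λ : ℝ, 0 < Λ ∧ -Real.log (L / 36 / (32 * ρ)) - 2 * Real.log ρ ≤ Λ :=
    ⟨max 1 _, lt_max_of_lt_left one_pos, le_max_right _ _⟩
  obtain ⟨s₀, hs₀, hs₁, hs₂⟩ : ∃ s₀ : ℝ, 0 < s₀ ∧ A * s₀ ≤ 1 / 2 ∧ 49 * A ^ 2 * Λ * s₀ ≤ κ / 2 :=
    ⟨min (1 / 2 / A) (κ / 2 / (49 * A ^ 2 * Λ)), by positivity,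
      (le_div_iff₀' hA0).1 (min_le_left _ _), (le_div_iff₀' (by positivity)).1 (min_le_right _ _)⟩
  obtain ⟨ι, a, p, k, M, ha, hm, hp, hk, hM, he⟩ := split hu hx (mul_pos hL hs₀)
  obtain ⟨t, ht, ht1, htM⟩ : ∃ t : ℝ, 0 < t ∧ t ≤ 1 / 2 ∧ M * t ≤ L :=
    ⟨min (1 / 2) (L / M), by positivity, min_le_left _ _, (le_div_iff₀' hM).1 (min_le_right _ _)⟩
  obtain ⟨J, K, ζ, s, U, hK, hsum, hcov⟩ := geo ha hL hL1 hA ht (by linarith) hs₁ hm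
  obtain ⟨k', hk', hk''⟩ := exists_tail ha (fun z hz => (he z hz).1) U
  have hb : Sch fun z => ∏ i ∈ U, factor (a i) z :=
    sch_prod U fun i _ => factor_sch (ha i).1 (ha i).2
  generalize hbe : (fun z => ∏ i ∈ U, factor (a i) z) = b at hb
  simp only [congrFun hbe] at hK hk''
  have hg := hp.mul hk'
  have hug : ∀ z ∈ disc, u z = b z * (p z * k' z) := fun z hz => by
    rw [(he z hz).2.1, hk'' z hz]
    ring
  generalize hge : (fun z => p z * k' z) = g at hg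
  simp only [congrFun hge] at hug
  have hxb : Mx b := Mx.of_mul (hx.congr hug) hg
  have hxg : Mx g := Mx.of_mul (hx.congr fun z hz => (hug z hz).trans (mul_comm _ _)) hb
  have hs : ∀ j ∈ K, 0 < s j := fun j hj => ht.trans_le (hK j hj).2.1
  have hAs : ∀ j ∈ K, A * s j ≤ 1 / 2 := fun j hj =>
    (mul_le_mul_of_nonneg_left (hK j hj).2.2.1 hA0.le).trans hs₁
  have h2s : ∀ j ∈ K, 2 * s j ≤ A * s j := fun j hj =>
    mul_le_mul_of_nonneg_right hA2 (hs j hj).le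
  have hw : ∀ j ∈ K, ∀ τ : ℝ, 2 * s j ≤ τ → τ ≤ A * s j →
      ‖((1 - τ : ℝ) : ℂ) * ζ j‖ < 1 - t := fun j hj τ h1 h2 => by
    rw [norm_rad (hK j hj).1 (by linarith [hAs j hj])]
    linarith [(hK j hj).2.1]
  have hw1 : ∀ j ∈ K, ((1 - 2 * s j : ℝ) : ℂ) * ζ j ∈ disc := fun j hj =>
    mem_disc.2 (by linarith [hw j hj _ le_rfl (h2s j hj)])
  have hw2 : ∀ j ∈ K, ((1 - A * s j : ℝ) : ℂ) * ζ j ∈ disc := fun j hj =>
    mem_disc.2 (by linarith [hw j hj _ (h2s j hj) le_rfl])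
  have hσ : ∀ j ∈ K,
      L / 36 ≤ ‖b (((1 - 2 * s j : ℝ) : ℂ) * ζ j) - b (((1 - A * s j : ℝ) : ℂ) * ζ j)‖ := by
    exact fun j hj => gap (hb.2 _ (hw1 j hj)) (hb.2 _ (hw2 j hj)) (hK j hj).2.2.2.1 (hK j hj).2.2.2.2
  choose! x y hxy using fun j hj => quad (ρ := ρ) (sub_ne_zero.1 (norm_pos_iff.1
    ((by positivity : 0 < L / 36).trans_le (hσ j hj)))) (hg.2 _ (hw1 j hj)) (hg.2 _ (hw2 j hj))
    (by linarith)
  have hl := fun x : ℂ => circleIntegrable_log_norm_sub_const (c := 0) (a := x) ρ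
  have hi : ∀ j ∈ K, CircleIntegrable
      (fun ε => (-s j) • (Real.log ‖ε - x j‖ + Real.log ‖ε - y j‖)) 0 ρ := fun j _ =>
    IntervalIntegrable.smul ((hl (x j)).add (hl (y j))) (-s j)
  have hi' := CircleIntegrable.sum K hi
  rw [Finset.sum_fn] at hi'
  obtain ⟨θ, ⟨hθ, hθ'⟩, hav⟩ := pick hi' ((frostman hg (hxg.wi hg) hρ (by linarith)).and
    (ae_restrict_of_ae ((((K.finite_toSet.image x).union
      (K.finite_toSet.image y)).countable.preimage_circleMap 0 hρ.ne').ae_notMem volume)))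
  have hε : ‖circleMap 0 ρ θ‖ = ρ := by rw [norm_circleMap_zero, abs_of_pos hρ]
  rw [mem_preimage] at hθ'
  generalize circleMap 0 ρ θ = ε at hθ hθ' hav hε
  have hεd : ε ∈ disc := mem_disc.2 (by linarith)
  have hne : ∀ j ∈ K, 0 < ‖ε - x j‖ ∧ 0 < ‖ε - y j‖ := fun j hj =>
    ⟨norm_pos_iff.2 (sub_ne_zero.2 fun h => hθ' (Or.inl ⟨j, hj, h.symm⟩)),
      norm_pos_iff.2 (sub_ne_zero.2 fun h => hθ' (Or.inr ⟨j, hj, h.symm⟩))⟩
  have hav' : ∑ j ∈ K, (-s j) * (Real.log ‖ε - x j‖ + Real.log ‖ε - y j‖) ≤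
      ∑ j ∈ K, (-s j) * (2 * Real.log ρ) := by
    refine hav.trans ?_
    rw [circleAverage_fun_sum hi]
    refine Finset.sum_le_sum fun j hj => ?_
    rw [circleAverage_fun_smul, circleAverage_fun_add (hl _) (hl _), smul_eq_mul]
    exact mul_le_mul_of_nonpos_left (by linarith [avg_log_ge hρ (x j), avg_log_ge hρ (y j)])
      (neg_nonpos.2 (hs j hj).le)
  have hv := hb.mul (hg.mob hεd)
  have hxv := hxb.mul hθ (hg.mob hεd).1
  have hxy' := fun j hj => (mul_le_mul_of_nonneg_right (hσ j hj)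
    (mul_pos (hne j hj).1 (hne j hj).2).le).trans (hxy j hj ε hε)
  generalize hve : (fun z => b z * mob ε (g z)) = v at hv hxv
  simp only [congrFun hve] at hxy'
  obtain ⟨δ, ⟨hδ, hδL⟩, hδD⟩ : ∃ δ : ℝ, δ ∈ Ioc 0 L ∧ ∀ j ∈ K, δ < ‖v (((1 - 2 * s j : ℝ) : ℂ) * ζ j)
      - v (((1 - A * s j : ℝ) : ℂ) * ζ j)‖ / 4 := by
    refine (Eventually.and (f := 𝓝[>] 0) (Ioc_mem_nhdsGT hL) ((eventually_all_finset K).2
      fun j hj => mem_nhdsWithin_of_mem_nhds (gt_mem_nhds ?_))).exists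
    have h1 := (mul_pos (by positivity) (mul_pos (hne j hj).1 (hne j hj).2)).trans_le (hxy' j hj)
    exact div_pos ((mul_pos_iff_of_pos_left (by positivity)).1 h1) (by norm_num)
  refine ⟨v, δ, hv, hxv, fun z hz => ?_, hδ, fun f hf hfv a₀ ha₀ B S hB hS hS0 hfa => ?_⟩
  · rw [← congrFun hve, hug z hz, ← mul_sub, norm_mul, ← hε]
    exact (mul_le_of_le_one_left (norm_nonneg _) (hb.2 z hz)).trans
      (mob_sub_le (by linarith) (hg.2 z hz))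
  have had : a₀ ∈ disc := mem_disc.2 (by linarith)
  have hfS : ∀ z ∈ disc, ‖f z - a₀‖ ≤ 2 * ‖S z‖ := fun z hz => by
    have h1 := le_mob had (hf.2 z hz)
    rw [hfa z hz, norm_mul] at h1
    linarith [mul_le_of_le_one_left (norm_nonneg (S z)) (hB.2 z hz)]
  have hτ : ∀ j ∈ K, ∃ τ : ℝ, 2 * s j ≤ τ ∧ τ ≤ A * s j ∧
      L / 36 * (‖ε - x j‖ * ‖ε - y j‖) ≤ 32 * ρ * ‖S (((1 - τ : ℝ) : ℂ) * ζ j)‖ := by
    intro j hj
    have h1 := hxy' j hj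
    have h2 := hδD j hj
    have h3 := hfS _ (hw1 j hj)
    have h4 := hfS _ (hw2 j hj)
    have h5 := hfv _ (hw1 j hj)
    have h6 := hfv _ (hw2 j hj)
    have h7 := dist_triangle4 (v (((1 - 2 * s j : ℝ) : ℂ) * ζ j))
      (f (((1 - 2 * s j : ℝ) : ℂ) * ζ j)) (f (((1 - A * s j : ℝ) : ℂ) * ζ j))
      (v (((1 - A * s j : ℝ) : ℂ) * ζ j))
    have h8 := dist_triangle_right (f (((1 - 2 * s j : ℝ) : ℂ) * ζ j))
      (f (((1 - A * s j : ℝ) : ℂ) * ζ j)) a₀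
    have h9 : ∀ D E : ℝ, D ≤ 8 * E → 4 * ρ * D ≤ 32 * ρ * E := fun D E h => by
      linarith [mul_le_mul_of_nonneg_left h hρ.le]
    rw [dist_comm _ (f _)] at h7
    simp only [dist_eq_norm] at h7 h8
    rcases le_total ‖S (((1 - 2 * s j : ℝ) : ℂ) * ζ j)‖ ‖S (((1 - A * s j : ℝ) : ℂ) * ζ j)‖
      with h | h
    · exact ⟨A * s j, h2s j hj, le_rfl, h1.trans (h9 _ _ (by linarith))⟩
    · exact ⟨2 * s j, le_rfl, h2s j hj, h1.trans (h9 _ _ (by linarith))⟩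
  choose! τ hτ1 hτ2 hτ3 using hτ
  refine (est hS hS0 (r := 1 - t) (by linarith) (by linarith) K (c := fun j => 49 * A ^ 2 * s j)
    (w := fun j => ((1 - τ j : ℝ) : ℂ) * ζ j) (fun j hj => (mul_pos (by positivity) (hs j hj)).le)
    (fun j hj => hw j hj _ (hτ1 j hj) (hτ2 j hj)) (x := κ / 2) (by linarith) fun z hz => ?_).trans ?_
  · have ht0 : ((1 - t : ℝ) : ℂ) ≠ 0 := ofReal_ne_zero.2 (by linarith)
    obtain ⟨ξ, hξ, rfl⟩ : ∃ ξ : ℂ, ‖ξ‖ = 1 ∧ z = ((1 - t : ℝ) : ℂ) * ξ :=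
      ⟨z / ((1 - t : ℝ) : ℂ), by
        rw [norm_div, hz, norm_real, Real.norm_of_nonneg (by linarith), div_self (by linarith)],
        (mul_div_cancel₀ _ ht0).symm⟩
    refine (hcov ξ hξ).imp (fun h => ?_) fun ⟨j, hj, h⟩ => ⟨j, hj,
      poisson_ge hξ (hK j hj).1 ht (hK j hj).2.1 (hτ1 j hj) (hτ2 j hj) (hAs j hj) h⟩
    generalize ((1 - t : ℝ) : ℂ) * ξ = z at hz h ⊢
    have hzd : z ∈ disc := mem_disc.2 (by linarith)
    have h1 := q_lim (he z hzd).1 (fun i => (factor_sch (ha i).1 (ha i).2).2 z hzd) h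
    have h2 := (he z hzd).2.2
    have h3 := q_mul (hp.2 z hzd) (hk.2 z hzd)
    rw [← (he z hzd).2.1, hug z hzd] at h3
    rw [hz, sub_sub_cancel] at h2
    have h16 := offc (hb.2 z hzd) (hg.2 z hzd) (hf.2 z hzd) (hε.le.trans hρ1) ha₀ hc1 hL hLκ
      (by linarith) (by rw [congrFun hve]; exact (hfv z hzd).trans hδL)
    obtain ⟨h17, h18⟩ := nlog_le_q h16 (by linarith) (norm_mob_le had (hf.2 z hzd))
    rw [hfa z hzd] at h17 h18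
    exact (nlog_le (hB.2 z hzd) h17).trans h18
  · have h1 : ∀ j ∈ K, 49 * A ^ 2 * s j * -Real.log ‖S (((1 - τ j : ℝ) : ℂ) * ζ j)‖ ≤
        49 * A ^ 2 * (-Real.log (L / 36 / (32 * ρ)) * s j +
          (-s j) * (Real.log ‖ε - x j‖ + Real.log ‖ε - y j‖)) := by
      intro j hj
      have h2 := (div_le_iff₀' (by positivity)).2 (hτ3 j hj)
      rw [← div_mul_eq_mul_div] at h2
      have h3 := Real.log_le_log (mul_pos (by positivity) (mul_pos (hne j hj).1 (hne j hj).2)) h2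
      rw [Real.log_mul (by positivity) (mul_pos (hne j hj).1 (hne j hj).2).ne',
        Real.log_mul (hne j hj).1.ne' (hne j hj).2.ne'] at h3
      rw [mul_assoc]
      exact mul_le_mul_of_nonneg_left
        (by linarith [mul_le_mul_of_nonneg_left h3 (hs j hj).le]) (by positivity)
    have h2 := Finset.sum_le_sum h1
    rw [← Finset.mul_sum, Finset.sum_add_distrib, ← Finset.mul_sum] at h2
    rw [← Finset.sum_mul, Finset.sum_neg_distrib] at hav'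
    have h3 : 0 ≤ ∑ j ∈ K, s j := Finset.sum_nonneg fun j hj => (hs j hj).le
    have h4 := mul_le_mul hΛ hsum h3 hΛ0.le
    have h5 := mul_le_mul_of_nonneg_left (show -Real.log (L / 36 / (32 * ρ)) * ∑ j ∈ K, s j +
      ∑ j ∈ K, (-s j) * (Real.log ‖ε - x j‖ + Real.log ‖ε - y j‖) ≤ Λ * s₀ by linarith)
      (by positivity : 0 ≤ 49 * A ^ 2)
    linarith

theorem exists_good (hu : Sch u) (hx : Mx u) {δ : ℝ} (hδ : 0 < δ) :
    ∃ f, Sch f ∧ (∀ z ∈ disc, ‖f z - u z‖ ≤ δ) ∧ ∀ n : ℕ, Good (1 - 1 / (n + 1)) (1 / (n + 1)) f := by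
  let X := {x : (ℂ → ℂ) × ℝ // Sch x.1 ∧ Mx x.1 ∧ 0 < x.2}
  have step : ∀ (n : ℕ) (x : X), ∃ y : X, (∀ z ∈ disc, ‖y.1.1 z - x.1.1 z‖ ≤ x.1.2 - y.1.2) ∧
      ∀ f, Sch f → (∀ z ∈ disc, ‖f z - y.1.1 z‖ ≤ y.1.2) →
        Good (1 - 1 / (n + 1)) (1 / (n + 1)) f := by
    intro n x
    have h0 : (0 : ℝ) < 1 / (n + 1) := Nat.one_div_pos_of_nat
    have h1 : (1 : ℝ) / (n + 1) ≤ 1 := (div_le_one (by positivity)).2 (by simp)
    have h2 := x.2.2.2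
    obtain ⟨v, η, hv, hxv, h3, h4, h5⟩ := core x.2.1 x.2.2.1 (ρ := min (1 / 2) (x.1.2 / 8))
      (by positivity) (min_le_left _ _) (sub_nonneg.2 h1) (sub_lt_self _ h0) h0 h1
    refine ⟨⟨(v, min η (x.1.2 / 2)), hv, hxv, by positivity⟩, fun z hz => ?_,
      fun f hf h6 => h5 f hf fun z hz => (h6 z hz).trans (min_le_left _ _)⟩
    linarith [h3 z hz, min_le_right (1 / 2) (x.1.2 / 8), min_le_right η (x.1.2 / 2)]
  choose g hg hg' using step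
  let x : ℕ → X := fun n => Nat.rec ⟨(u, δ), hu, hx, hδ⟩ g n
  have h1 : ∀ n m, n ≤ m → ∀ z ∈ disc, ‖(x m).1.1 z - (x n).1.1 z‖ ≤ (x n).1.2 - (x m).1.2 := by
    intro n m hnm z hz
    induction m, hnm using Nat.le_induction with
    | base => simp
    | succ m _ ih =>
      linarith [norm_sub_le_norm_sub_add_norm_sub ((x (m + 1)).1.1 z) ((x m).1.1 z) ((x n).1.1 z),
        (hg m (x m) z hz : ‖(x (m + 1)).1.1 z - (x m).1.1 z‖ ≤ (x m).1.2 - (x (m + 1)).1.2)]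
  obtain ⟨U, hU⟩ := Ultrafilter.exists_le (atTop : Filter ℕ)
  obtain ⟨f, hf, hl⟩ := montel U fun n => (x n).2.1
  have h2 : ∀ n, ∀ z ∈ disc, ‖f z - (x n).1.1 z‖ ≤ (x n).1.2 := fun n z hz => by
    refine le_of_tendsto ((hl z hz).sub_const _).norm ?_
    filter_upwards [hU (eventually_ge_atTop n)] with m hm
    linarith [h1 n m hm z hz, (x m).2.2.2]
  exact ⟨f, hf, h2 0, fun n => hg' n (x n) f hf (h2 (n + 1))⟩

theorem density (hu : IsInner u) (hn : NC u) {ε : ℝ} (hε : 0 < ε) :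
    ∃ B, Indestructible B ∧ ∀ z ∈ disc, ‖u z - B z‖ ≤ ε := by
  have hS : Sch u := ⟨hu.1, hu.2.1⟩
  obtain ⟨z₀, hz₀, w₀, hw₀, hne⟩ := hn
  have hd := norm_pos_iff.2 (sub_ne_zero.2 hne)
  obtain ⟨ρ, hρ, hρ1, hρ2, hρ3⟩ : ∃ ρ : ℝ, 0 < ρ ∧ ρ ≤ 1 / 2 ∧ ρ ≤ ε / 5 ∧
      ρ ≤ ‖u z₀ - u w₀‖ / 11 := ⟨min (1 / 2) (min (ε / 5) (‖u z₀ - u w₀‖ / 11)), by positivity,
    min_le_left _ _, (min_le_right _ _).trans (min_le_left _ _),
    (min_le_right _ _).trans (min_le_right _ _)⟩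
  obtain ⟨θ, hθ, -⟩ := pick (circleIntegrable_const (0 : ℝ) 0 ρ)
    (frostman hS hu.wi hρ (by linarith))
  have ht : ‖circleMap 0 ρ θ‖ = ρ := by rw [norm_circleMap_zero, abs_of_pos hρ]
  obtain ⟨f, hf, h1, h2⟩ := exists_good (hS.mob (cm_mem hρ (by linarith) θ)) hθ hρ
  have h3 : ∀ z ∈ disc, ‖u z - f z‖ ≤ 5 * ρ := fun z hz => by
    have h4 := mob_sub_le (ht.le.trans hρ1) (hS.2 z hz)
    have h5 := norm_sub_le_norm_sub_add_norm_sub (f z) (mob (circleMap 0 ρ θ) (u z)) (u z)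
    rw [norm_sub_rev]
    linarith [h1 z hz]
  have hfn : NC f := ⟨z₀, hz₀, w₀, hw₀, fun h => by
    have h4 := norm_sub_le_norm_sub_add_norm_sub (u z₀) (f z₀) (u w₀)
    rw [norm_sub_rev (f z₀), h] at h4
    have h5 := h3 z₀ hz₀
    rw [h] at h5
    linarith [h3 w₀ hw₀]⟩
  have h4 : ∀ φ : ℝ, ∀ a ∈ disc, IsBlaschke fun z => exp (φ * I) * mob a (f z) := by
    intro φ a ha
    have h5 := mob_comp_nc ha hf.1 (hf.maps hfn) hfn
    have h6 : Mx fun z => mob a (f z) := mx_of_fact (hf.mob ha) h5.nz fun B S hB hS h0 he => by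
      have h7 := tendsto_one_div_add_atTop_nhds_zero_nat (𝕜 := ℝ)
      refine ge_of_tendsto h7 ?_
      filter_upwards [h7.eventually (gt_mem_nhds (sub_pos.2 (mem_disc.1 ha)))] with n hn
      exact h2 n a (by linarith) B S hB hS h0 he
    have h7 := norm_exp_ofReal_mul_I φ
    refine blaschke_of_mx (h := fun z => z) ((sch_const h7.le).mul (hf.mob ha)) ?_
      differentiableOn_id (mapsTo_id _) ((mx_const h7).mul h6 (hf.mob ha).1)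
    obtain ⟨z, hz, w, hw, h8⟩ := h5
    exact ⟨z, hz, w, hw, fun h => h8 (mul_left_cancel₀ (Complex.exp_ne_zero _) h)⟩
  refine ⟨f, ⟨?_, h4⟩, fun z hz => by linarith [h3 z hz]⟩
  simpa [mob_zero] using h4 0 0 zero_mem_disc

end Pool.Agent.P.MP_4d1c53_an
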